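import Pool.Agent.Helper77.WDG.Nrm
import Pool.Agent.Helper36.AM.Inv

/-! TRANSITION OF TWO TRIANGULAR CHARTS with the same scales: the scaled coordinates of the second chart as polynomials of
the scaled coordinates of the first chart. -/

set_option autoImplicit false

namespace Pool.Agent.Helper18.TRF

open Finset MvPolynomial Pool.Agent.Helper36.AM
open Pool.Agent.Helper81.MI (totalDegree_bind eval_bind)

noncomputable section

variable {M : ℕ}

/-- the chart `P` in scaled coordinates -/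
def sch (P : Fin M → MvPolynomial (Fin M) ℝ) (d : Fin M → ℝ) (i : Fin M) : MvPolynomial (Fin M) ℝ :=
  bind₁ (fun a => C (d a) * X a) (X i + P i)

/-- the coordinate `j` of the chart `P'` as a polynomial of the scaled coordinates of the chart `P` -/
def ntr (P P' : Fin M → MvPolynomial (Fin M) ℝ) (d : Fin M → ℝ) (j : Fin M) : MvPolynomial (Fin M) ℝ :=
  C (d j)⁻¹ * bind₁ (sch P d) (inv P' j)

variable {P P' : Fin M → MvPolynomial (Fin M) ℝ} {d : Fin M → ℝ}

theorem sch_eval (x : Fin M → ℝ) (i : Fin M) :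
    eval x (sch P d i) = eval (fun a => d a * x a) (P i) + d i * x i := by
  unfold sch
  rw [eval_bind]
  have h1 : (fun a => eval x (C (d a) * X a)) = fun a => d a * x a := funext fun a => by
    rw [map_mul, eval_C, eval_X]
  rw [h1, map_add, eval_X, add_comm]

theorem ntr_eval (x : Fin M → ℝ) (j : Fin M) :
    eval x (ntr P P' d j) = (d j)⁻¹ * eval (fun i => eval (fun a => d a * x a) (P i) + d i * x i) (inv P' j) := by
  unfold ntr
  rw [map_mul, eval_C, eval_bind]
  have h1 : (fun i => eval x (sch P d i)) = fun i => eval (fun a => d a * x a) (P i) + d i * x i :=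
    funext fun i => sch_eval x i
  rw [h1]

theorem sch_deg {κ : ℕ} (hκ : ∀ j, (P j).totalDegree ≤ κ) (i : Fin M) : (sch P d i).totalDegree ≤ κ + 1 := by
  have h1 : (X i + P i : MvPolynomial (Fin M) ℝ).totalDegree ≤ κ + 1 := by
    refine (totalDegree_add _ _).trans (max_le ?_ ((hκ i).trans (Nat.le_succ _)))
    rw [totalDegree_X]
    omega
  refine (totalDegree_bind _ h1 _ (p := 1) fun a => ?_).trans (by omega)
  refine (totalDegree_mul _ _).trans ?_
  rw [totalDegree_C, totalDegree_X]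

theorem ntr_deg {κ κ' : ℕ} (hκ : ∀ j, (P j).totalDegree ≤ κ) (hκ' : ∀ j, (P' j).totalDegree ≤ κ') (j : Fin M) :
    (ntr P P' d j).totalDegree ≤ (κ' + 1) ^ M * (κ + 1) := by
  refine (totalDegree_mul _ _).trans ?_
  rw [totalDegree_C, zero_add]
  exact totalDegree_bind _ (inv_deg hκ' j) _ fun i => sch_deg hκ i

/-- THE VALUE OF THE TRANSITION: `x` scaled coordinates in `P`, `x'` in `P'`, of the same point up to `ε` -/
theorem ntr_val (tri' : ∀ j, ∀ i ∈ (P' j).vars, i < j) {κ' : ℕ} (hκ' : ∀ j, (P' j).totalDegree ≤ κ')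
    {K B ε L : ℝ} (hK : 0 ≤ K) (hc : ∀ j a, |(P' j).coeff a| ≤ K) (hB : 0 ≤ B) (hε : 0 ≤ ε)
    (hL : L = ((κ' : ℝ) + 1) ^ M * K * (κ' * (B + 1) ^ κ')) (hs : (1 + L) ^ M * (ε + ε) ≤ 1) (x x' q : Fin M → ℝ)
    (hd : ∀ i, 0 < d i) (hU : ∀ i, |d i * x' i| ≤ B)
    (hx : ∀ j, |q j - (eval (fun a => d a * x a) (P j) + d j * x j)| ≤ ε)
    (hx' : ∀ j, |q j - (eval (fun a => d a * x' a) (P' j) + d j * x' j)| ≤ ε) (j : Fin M) :
    |eval x (ntr P P' d j) - x' j| ≤ (d j)⁻¹ * ((1 + L) ^ M * (ε + ε)) := by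
  have h1 := inv_val tri' hκ' hK hc hB (add_nonneg hε hε) hL hs (fun a => d a * x' a)
    (fun i => eval (fun a => d a * x a) (P i) + d i * x i) hU (fun i => by
      have h2 := hx i
      have h3 := hx' i
      rw [abs_le] at h2 h3 ⊢
      constructor <;> linarith) j
  have h4 : eval x (ntr P P' d j) - x' j = (d j)⁻¹ *
      (eval (fun i => eval (fun a => d a * x a) (P i) + d i * x i) (inv P' j) - d j * x' j) := by
    rw [ntr_eval, mul_sub, ← mul_assoc (d j)⁻¹ (d j), inv_mul_cancel₀ (hd j).ne', one_mul]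
  rw [h4, abs_mul, abs_of_pos (inv_pos.mpr (hd j))]
  exact mul_le_mul_of_nonneg_left h1 (inv_pos.mpr (hd j)).le

end

end Pool.Agent.Helper18.TRF
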