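import Pool.Agent.Helper75.CC.Nr
import Pool.Agent.Helper77.WDG.Nrm

/-! TAME COEFFICIENTS: if the hull of the system is full, a polynomial of bounded degree which is known to the base and
whose value near the point is tame has tame coefficients on a typical event. -/

set_option autoImplicit false

namespace Pool.Agent.Helper18.TRF

open Finset Filter Topology Pool.Agent.Helper69.RK Pool.Agent.Helper31.EC Pool.Agent.Helper31.EC.Sp
open Pool.Agent.Helper40.EL Pool.Agent.Helper89.LX Pool.Agent.Helper3.LF Pool.Agent.Helper84.MT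
open Pool.Agent.Helper77.WDG (nrm nrm_nonneg coeff_le_nrm nrm_bind_le eval_le_nrm nrm_C nrm_mul_le card_support_le)

noncomputable section

variable {S T : Sp} {M : ℕ} {E : ℕ → ℕ} {ι κ : Type}

/-- a polynomial whose coefficients have sum of absolute values `≥ 1` has a coefficient of size `≥ (D + 1) ^ (- M)` -/
theorem ex_coeff {P : MvPolynomial (Fin M) ℝ} {D : ℕ} (hD : P.totalDegree ≤ D) (h : 1 ≤ nrm P) :
    ∃ a, 1 ≤ ((D : ℝ) + 1) ^ M * |P.coeff a| := by
  by_contra hn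
  push Not at hn
  have hne : P.support.Nonempty := by
    by_contra he
    rw [Finset.not_nonempty_iff_eq_empty] at he
    unfold nrm at h
    rw [he, Finset.sum_empty] at h
    linarith
  have h1 : ((D : ℝ) + 1) ^ M * nrm P < P.support.card := by
    unfold nrm
    rw [Finset.mul_sum]
    refine lt_of_lt_of_le (Finset.sum_lt_sum_of_nonempty hne fun a _ => hn a) ?_
    rw [Finset.sum_const, nsmul_eq_mul, mul_one]
  have h2 : (P.support.card : ℝ) ≤ ((D : ℝ) + 1) ^ M := by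
    have h3 := card_support_le hD
    rw [Fintype.card_fin] at h3
    exact_mod_cast h3
  have h4 : (0 : ℝ) < ((D : ℝ) + 1) ^ M := by positivity
  nlinarith

open Classical in
/-- the normalised polynomial -/
def nmz (P : MvPolynomial (Fin M) ℝ) : MvPolynomial (Fin M) ℝ :=
  if 1 ≤ nrm P then MvPolynomial.C (nrm P)⁻¹ * P else 1

theorem nmz_deg {P : MvPolynomial (Fin M) ℝ} {D : ℕ} (hD : P.totalDegree ≤ D) : (nmz P).totalDegree ≤ D := by
  unfold nmz
  by_cases h : 1 ≤ nrm P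
  · rw [if_pos h]
    refine (MvPolynomial.totalDegree_mul _ _).trans ?_
    rw [MvPolynomial.totalDegree_C, zero_add]
    exact hD
  · rw [if_neg h, MvPolynomial.totalDegree_one]
    exact Nat.zero_le _

theorem nmz_nrm_le (P : MvPolynomial (Fin M) ℝ) : nrm (nmz P) ≤ 1 := by
  unfold nmz
  by_cases h : 1 ≤ nrm P
  · rw [if_pos h]
    refine (nrm_mul_le _ _).trans ?_
    have h0 : 0 < nrm P := lt_of_lt_of_le one_pos h
    rw [nrm_C, abs_of_pos (inv_pos.mpr h0), inv_mul_cancel₀ h0.ne']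
  · rw [if_neg h, Pool.Agent.Helper77.WDG.nrm_one]

theorem nmz_nrm (P : MvPolynomial (Fin M) ℝ) : 1 ≤ nrm (nmz P) := by
  unfold nmz
  by_cases h : 1 ≤ nrm P
  · rw [if_pos h]
    have h0 : 0 < nrm P := lt_of_lt_of_le one_pos h
    have h1 : P = MvPolynomial.C (nrm P) * (MvPolynomial.C (nrm P)⁻¹ * P) := by
      rw [← mul_assoc, ← MvPolynomial.C_mul, mul_inv_cancel₀ h0.ne', MvPolynomial.C_1, one_mul]
    have h2 : nrm P ≤ nrm P * nrm (MvPolynomial.C (nrm P)⁻¹ * P) := by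
      have h3 := nrm_mul_le (MvPolynomial.C (nrm P)) (MvPolynomial.C (nrm P)⁻¹ * P)
      rw [← h1, nrm_C, abs_of_pos h0] at h3
      exact h3
    by_contra hc
    push Not at hc
    nlinarith
  · rw [if_neg h, Pool.Agent.Helper77.WDG.nrm_one]

/-- **TAME COEFFICIENTS** -/
theorem tame_coeff [Finite ι] {s : MSys S M E ι} (hv : ∀ D, (M : ℝ) ≤ s.vol D 0) {D : ℕ}
    (f : ∀ k, (S.F k).Ω → MvPolynomial (Fin M) ℝ) (deg : ∀ k ω, (f k ω).totalDegree ≤ D)
    (hf : ∀ᶠ k in UF, ∀ ω ω', (S.F k).μ ω ≠ 0 → (S.F k).μ ω' ≠ 0 → (S.F k).Z ω ω' → f k ω = f k ω')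
    (X : ∀ k, (S.F k).Ω → Fin M → ℝ) (hX : ∃ K : ℕ → ℝ, S.Sub K ∧ ∀ᶠ k in UF, ∀ ω, (S.F k).μ ω ≠ 0 → ∀ j,
      |X k ω j - s.Q.v k ω j| ≤ K k * S.dl 1 k)
    (hb : ∃ K : ℕ → ℝ, S.Sub K ∧ S.Typ fun k ω => |MvPolynomial.eval (X k ω) (f k ω)| ≤ K k) :
    ∃ K : ℕ → ℝ, S.Sub K ∧ S.Typ fun k ω => nrm (f k ω) ≤ K k := by
  obtain ⟨K1, hK1, h1⟩ := Pool.Agent.Helper75.CC.nr_low (T := S) hv
    ⟨fun _ ω => ω, fun k => (FLab.triv (S.F k)).p.law, fun _ _ _ _ _ => Iff.rfl, fun _ => rfl⟩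
    (W0 := fun _ => ⊤) (by
      have e : (fun n => Pool.Agent.Helper31.EC.H (fc (⊤ : Setoid (S.F n).Ω) : FL (S.F n))) = fun _ => 0 := by
        funext n
        exact H_bot
      rw [e]
      exact Nul_zero S) (fun k ω => nmz (f k ω)) (D := D) (Eventually.of_forall fun k ω _ => nmz_deg (deg k ω))
    (by
      filter_upwards [hf] with k hk ω ω' a b c _
      rw [hk ω ω' a b c])
    ⟨fun _ => 1, S.Sub_const zero_le_one, Eventually.of_forall fun k ω _ m =>
      (coeff_le_nrm _ m).trans (nmz_nrm_le _)⟩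
    ⟨fun _ => ((D : ℝ) + 1) ^ M, S.Sub_const (by positivity), (Typ_true (S := S)).mono
      (Eventually.of_forall fun k ω _ _ => ex_coeff (nmz_deg (deg k ω)) (nmz_nrm _))⟩
  obtain ⟨K2, hK2, h2⟩ := hX
  obtain ⟨K3, hK3, h3⟩ := hb
  obtain ⟨KQ, hKQ, hQ⟩ := s.Q.bd
  obtain ⟨B, hB⟩ : ∃ B : ℕ → ℝ, B = fun k => KQ k + K2 k + 1 := ⟨_, rfl⟩
  have hBS : S.Sub B := by
    rw [hB]
    exact (hKQ.add hK2).add (S.Sub_const zero_le_one)
  have hE : S.Sub (fun k => 2 * (K1 k * (D * B k ^ D * K2 k))) :=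
    (S.Sub_const (by norm_num)).mul (hK1.mul (((S.Sub_const (Nat.cast_nonneg _)).mul (Sub_pow' hBS D)).mul hK2))
  refine ⟨fun k => 2 * (K1 k * K3 k) + 1, ((S.Sub_const (by norm_num)).mul (hK1.mul hK3)).add
    (S.Sub_const zero_le_one), ?_⟩
  refine (h1.and h3).mono ?_
  filter_upwards [h2, hQ, hKQ.1, hK2.1, hK1.1, hK3.1, hE.eventually_le one_pos] with k a2 aQ p1 p2 p3 p4 p5
  intro ω hω hh
  have c1 : 1 ≤ K1 k * |MvPolynomial.eval (s.Q.v k ω) (nmz (f k ω))| := hh.1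
  have c2 : |MvPolynomial.eval (X k ω) (f k ω)| ≤ K3 k := hh.2
  have hd1 : S.dl 1 k * 2 ^ (1 * (S.F k).n) = 1 := by
    unfold Sp.dl
    rw [← Real.rpow_add (by norm_num)]
    norm_num
  have hδ := S.dl_pos 1 k
  have hdl : S.dl 1 k ≤ 1 := (S.dl_anti zero_le_one k).trans (le_of_eq (S.dl_zero k))
  have hB1 : 1 ≤ B k := by
    rw [hB]
    show 1 ≤ KQ k + K2 k + 1
    linarith
  have bQ : ∀ i, |s.Q.v k ω i| ≤ B k := fun i => by
    have := aQ ω hω i
    rw [hB]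
    show _ ≤ KQ k + K2 k + 1
    linarith
  have bX : ∀ i, |X k ω i| ≤ B k := fun i => by
    have h5 := aQ ω hω i
    have h6 := a2 ω hω i
    have h7 : K2 k * S.dl 1 k ≤ K2 k := mul_le_of_le_one_right p2 hdl
    have h8 := abs_add_le (X k ω i - s.Q.v k ω i) (s.Q.v k ω i)
    rw [sub_add_cancel] at h8
    rw [hB]
    show _ ≤ KQ k + K2 k + 1
    linarith
  have hdiff := Pool.Agent.Helper77.WDG.eval_sub_le (P := nmz (f k ω)) hB1 (mul_nonneg p2 hδ.le)
    (nmz_deg (deg k ω)) (fun i _ => bQ i) (fun i _ => bX i) (fun i _ => by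
      have := a2 ω hω i
      rw [abs_sub_comm] at this
      exact this)
  have hdiff2 : |MvPolynomial.eval (s.Q.v k ω) (nmz (f k ω)) - MvPolynomial.eval (X k ω) (nmz (f k ω))| ≤
      (D * B k ^ D * K2 k) * S.dl 1 k := by
    refine hdiff.trans ?_
    have h5 : nrm (nmz (f k ω)) * (D * B k ^ D * (K2 k * S.dl 1 k)) ≤ 1 * (D * B k ^ D * (K2 k * S.dl 1 k)) :=
      mul_le_mul_of_nonneg_right (nmz_nrm_le _) (by positivity)
    linarith
  have hsm : K1 k * ((D * B k ^ D * K2 k) * S.dl 1 k) ≤ 1 / 2 := by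
    have h5 := mul_le_mul_of_nonneg_right p5 hδ.le
    rw [mul_comm (2 ^ (1 * (S.F k).n)) (S.dl 1 k), hd1] at h5
    linarith
  have c3 : 1 ≤ 2 * (K1 k * |MvPolynomial.eval (X k ω) (nmz (f k ω))|) := by
    have h5 : |MvPolynomial.eval (s.Q.v k ω) (nmz (f k ω))| ≤ |MvPolynomial.eval (X k ω) (nmz (f k ω))| +
        (D * B k ^ D * K2 k) * S.dl 1 k := by
      have h6 := abs_sub_abs_le_abs_sub (MvPolynomial.eval (s.Q.v k ω) (nmz (f k ω)))
        (MvPolynomial.eval (X k ω) (nmz (f k ω)))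
      linarith
    have h7 := mul_le_mul_of_nonneg_left h5 p3
    rw [mul_add] at h7
    linarith
  show nrm (f k ω) ≤ 2 * (K1 k * K3 k) + 1
  by_cases h : 1 ≤ nrm (f k ω)
  · have h0 : 0 < nrm (f k ω) := lt_of_lt_of_le one_pos h
    have e : nmz (f k ω) = MvPolynomial.C (nrm (f k ω))⁻¹ * f k ω := by
      unfold nmz
      rw [if_pos h]
    rw [e, map_mul, MvPolynomial.eval_C, abs_mul, abs_of_pos (inv_pos.mpr h0)] at c3
    have h5 : nrm (f k ω) * (2 * (K1 k * ((nrm (f k ω))⁻¹ * |MvPolynomial.eval (X k ω) (f k ω)|))) =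
        2 * (K1 k * |MvPolynomial.eval (X k ω) (f k ω)|) := by
      field_simp
    have h6 := mul_le_mul_of_nonneg_left c3 h0.le
    rw [h5, mul_one] at h6
    have h7 := mul_le_mul_of_nonneg_left c2 p3
    linarith
  · push Not at h
    have := mul_nonneg p3 p4
    linarith

end

end Pool.Agent.Helper18.TRF
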