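import Pool.Agent.Helper18.TRF.Fro
import Pool.Agent.Helper18.TRF.Pol
import Pool.Agent.Helper18.TRF.Tam
import Pool.Agent.Helper7.GZ.Sys

/-! TRANSITION OF FRAMES: two frames of the same label with the same exponents; if the zoom in the first frame has a full
hull, the coordinates of the second frame are polynomials with tame coefficients, known to the label, of the coordinates of
the first frame (up to the resolution); so the cells of the coordinates are the same information over the label. -/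

set_option autoImplicit false

namespace Pool.Agent.Helper18.TRF

open Finset Filter Topology Pool.Agent.Helper69.RK Pool.Agent.Helper31.EC Pool.Agent.Helper31.EC.Sp
open Pool.Agent.Helper40.EL Pool.Agent.Helper89.LX Pool.Agent.Helper3.LF Pool.Agent.Helper84.MT
open Pool.Agent.Helper36.AM
open Pool.Agent.Helper77.WDG (nrm nrm_nonneg coeff_le_nrm)
open Pool.Agent.Helper7.GZ (PLe_cell_typ Typ_all)

noncomputable section

variable {S : Sp} {M : ℕ} {E : ℕ → ℕ} {ι κ : Type}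

/-! ### the space over a label -/

theorem ovr_dl (l : Lab S) (e : ℝ) (he : 0 < e) (r : ℝ) (k : ℕ) : (l.ovr e he).dl r k = S.dl (e * r) k := by
  unfold dl
  rw [l.n_over e he k]
  congr 1
  ring

theorem ovr_Sub (l : Lab S) (e : ℝ) (he : 0 < e) {K : ℕ → ℝ} : (l.ovr e he).Sub K ↔ S.Sub K := by
  have h1 : (fun k => Real.logb 2 (K k + 2) / ((l.ovr e he).F k).n) =
      fun k => e⁻¹ * (Real.logb 2 (K k + 2) / (S.F k).n) := by
    funext k
    rw [l.n_over e he k]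
    have := (S.F k).pos
    field_simp
  unfold Sp.Sub
  rw [h1]
  constructor
  · intro h
    refine ⟨h.1, ?_⟩
    have h2 := h.2.const_mul e
    rw [mul_zero] at h2
    refine h2.congr fun k => ?_
    rw [← mul_assoc, mul_inv_cancel₀ he.ne', one_mul]
  · intro h
    refine ⟨h.1, ?_⟩
    have := h.2.const_mul e⁻¹
    rwa [mul_zero] at this

theorem Sub_sum {m : ℕ} (K : Fin m → ℕ → ℝ) (h : ∀ i, S.Sub (K i)) : S.Sub (fun k => ∑ i, K i k) := by
  classical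
  have h1 : ∀ s : Finset (Fin m), S.Sub (fun k => ∑ i ∈ s, K i k) := by
    intro s
    induction s using Finset.induction_on with
    | empty =>
      have e : (fun k => ∑ i ∈ (∅ : Finset (Fin m)), K i k) = fun _ => (0 : ℝ) := funext fun k => Finset.sum_empty
      rw [e]
      exact S.Sub_const le_rfl
    | insert a s ha ih =>
      have e : (fun k => ∑ i ∈ insert a s, K i k) = fun k => K a k + ∑ i ∈ s, K i k :=
        funext fun k => Finset.sum_insert ha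
      rw [e]
      exact (h a).add ih
  exact h1 Finset.univ

/-! ### the polynomials of the transition -/

section two
variable {Q : S.VV M} {l : Lab S} {La : Fin M → ℝ} (f f' : Frm Q l La)

/-- the coordinates of the second frame as polynomials of the coordinates of the first frame -/
def trp (k : ℕ) (ω : (l k).T.Ω) (j : Fin M) : MvPolynomial (Fin M) ℝ :=
  ntr (f.P k ω) (f'.P k ω) (fun i => S.dl (La i) k) j

theorem trp_deg {d d' : ℕ} (hd : ∀ k ω j, (f.P k ω j).totalDegree ≤ d) (hd' : ∀ k ω j, (f'.P k ω j).totalDegree ≤ d')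
    (k : ℕ) (ω : (l k).T.Ω) (j : Fin M) : (trp f f' k ω j).totalDegree ≤ (d' + 1) ^ M * (d + 1) :=
  ntr_deg (fun j => hd k ω j) (fun j => hd' k ω j) j

theorem trp_fn : ∀ᶠ k in UF, ∀ ω ω' : (l k).T.Ω, (l k).T.μ ω ≠ 0 → (l k).T.μ ω' ≠ 0 → (l k).T.Z ω ω' →
    (l k).V ω ω' → trp f f' k ω = trp f f' k ω' := by
  filter_upwards [f.fn, f'.fn] with k h1 h2 ω ω' a b c d
  have e1 : f.P k ω = f.P k ω' := h1 ω ω' a b c d
  have e2 : f'.P k ω = f'.P k ω' := h2 ω ω' a b c d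
  funext j
  unfold trp
  rw [e1, e2]

theorem dl_inv_mul (a b : ℝ) (k : ℕ) : (S.dl a k)⁻¹ * S.dl b k = S.dl (b - a) k := by
  unfold dl
  rw [← Real.rpow_neg (by norm_num), ← Real.rpow_add (by norm_num)]
  congr 1
  ring

/-- THE VALUES OF THE TRANSITION -/
theorem trp_val (h0 : ∀ i, 0 ≤ La i) {d' : ℕ}
    (hd' : ∀ k ω j, (f'.P k ω j).totalDegree ≤ d') : ∃ K : ℕ → ℝ, S.Sub K ∧ ∀ᶠ k in UF, ∀ ω : (l k).T.Ω,
      (l k).T.μ ω ≠ 0 → ∀ j, |MvPolynomial.eval (f.X.v k ω) (trp f f' k ω j) - f'.X.v k ω j| ≤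
        K k * S.dl (1 - La j) k := by
  obtain ⟨Kc, hKc, hc⟩ := f'.bd
  obtain ⟨Kp, hKp, hp⟩ := f.pt
  obtain ⟨Kq, hKq, hq⟩ := f'.pt
  obtain ⟨Kx, hKx', hx⟩ := f'.X.bd
  have hKx : S.Sub Kx := (sp_Sub l).mp hKx'
  obtain ⟨L, hL⟩ : ∃ L : ℕ → ℝ, L = fun k => ((d' : ℝ) + 1) ^ M * Kc k * (d' * (Kx k + 1) ^ d') := ⟨_, rfl⟩
  have hLS : S.Sub L := by rw [hL]; exact Sub_L hKc hKx M d'
  have hE : S.Sub (fun k => (1 + L k) ^ M * ((Kp k + Kq k) + (Kp k + Kq k))) :=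
    (Sub_pow' ((S.Sub_const zero_le_one).add hLS) M).mul ((hKp.add hKq).add (hKp.add hKq))
  refine ⟨_, hE, ?_⟩
  filter_upwards [hc, hp, hq, hx, hKc.1, hKp.1, hKq.1, hKx.1, hE.eventually_le one_pos] with k c1 c2 c3 c4 p1 p2 p3 p4 p5
  intro ω hω j
  have hδ := S.dl_pos 1 k
  have hd1 : S.dl 1 k * 2 ^ (1 * (S.F k).n) = 1 := by
    unfold Sp.dl
    rw [← Real.rpow_add (by norm_num)]
    norm_num
  have hL0 : 0 ≤ L k := by rw [hL]; positivity
  have hs : (1 + L k) ^ M * ((Kp k + Kq k) * S.dl 1 k + (Kp k + Kq k) * S.dl 1 k) ≤ 1 := by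
    have h2 := mul_le_mul_of_nonneg_right p5 hδ.le
    rw [mul_comm (2 ^ (1 * (S.F k).n)) (S.dl 1 k), hd1] at h2
    linarith
  have h2 := ntr_val (P := f.P k ω) (P' := f'.P k ω) (d := fun i => S.dl (La i) k) (f'.tri k ω) (hd' k ω) p1
    (fun j a => c1 ω hω j a) p4 (show 0 ≤ (Kp k + Kq k) * S.dl 1 k by positivity) (L := L k) (by rw [hL]) hs
    (f.X.v k ω) (f'.X.v k ω) ((l.pj.vv Q).v k ω) (fun i => S.dl_pos _ _) (fun i => by
      rw [abs_mul, abs_of_pos (S.dl_pos _ _)]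
      have h3 : S.dl (La i) k ≤ 1 := (S.dl_anti (h0 i) k).trans (le_of_eq (S.dl_zero k))
      have h4 : |f'.X.v k ω i| ≤ Kx k := c4 ω hω i
      calc S.dl (La i) k * |f'.X.v k ω i| ≤ 1 * |f'.X.v k ω i| := mul_le_mul_of_nonneg_right h3 (abs_nonneg _)
        _ ≤ Kx k := by rw [one_mul]; exact h4)
    (fun i => (c2 ω hω i).trans (by nlinarith)) (fun i => (c3 ω hω i).trans (by nlinarith)) j
  refine h2.trans (le_of_eq ?_)
  have h3 : (S.dl (La j) k)⁻¹ * ((1 + L k) ^ M * ((Kp k + Kq k) * S.dl 1 k + (Kp k + Kq k) * S.dl 1 k)) =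
      (1 + L k) ^ M * ((Kp k + Kq k) + (Kp k + Kq k)) * ((S.dl (La j) k)⁻¹ * S.dl 1 k) := by ring
  rw [h3, dl_inv_mul]

/-- **THE COEFFICIENTS OF THE TRANSITION ARE TAME** if the zoom in the first frame has a full hull -/
theorem trp_tame [Finite ι] (h0 : ∀ i, 0 ≤ La i) (h1 : ∀ i, La i ≤ 1) {d d' : ℕ}
    (hd : ∀ k ω j, (f.P k ω j).totalDegree ≤ d) (hd' : ∀ k ω j, (f'.P k ω j).totalDegree ≤ d') {e : ℝ} (he : 0 < e)
    {t : MSys (l.ovr e he) M E ι} (hv : ∀ D, (M : ℝ) ≤ t.vol D 0)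
    (ht : ∃ K : ℕ → ℝ, S.Sub K ∧ ∀ᶠ k in UF, ∀ ω : (l.sp.F k).Ω, (l.sp.F k).μ ω ≠ 0 → ∀ j,
      |t.Q.v k ω j - f.X.v k ω j| ≤ K k * S.dl e k) :
    ∃ K : ℕ → ℝ, S.Sub K ∧ Typ (S := l.sp) fun k (ω : (l k).T.Ω) => ∀ j, nrm (trp f f' k ω j) ≤ K k := by
  obtain ⟨Kt, hKt, ht⟩ := ht
  obtain ⟨Kv, hKv, hv'⟩ := trp_val f f' h0 hd'
  obtain ⟨Kx, hKx', hx⟩ := f'.X.bd
  have hKx : S.Sub Kx := (sp_Sub l).mp hKx'
  have hj : ∀ j : Fin M, ∃ K : ℕ → ℝ, S.Sub K ∧ Typ (S := l.sp) fun k (ω : (l k).T.Ω) =>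
      nrm (trp f f' k ω j) ≤ K k := by
    intro j
    obtain ⟨K, hK, hT⟩ := tame_coeff (s := t) hv (D := (d' + 1) ^ M * (d + 1))
      (fun k (ω : (l k).T.Ω) => trp f f' k ω j) (fun k ω => trp_deg f f' hd hd' k ω j) (by
        filter_upwards [trp_fn f f'] with k hk ω ω' a b c
        have h2 : trp f f' k ω = trp f f' k ω' := hk ω ω' a b c.2 c.1
        rw [h2])
      (fun k (ω : (l k).T.Ω) => f.X.v k ω)
      ⟨Kt, (ovr_Sub l e he).mpr hKt, by
        filter_upwards [ht] with k hk ω hω j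
        rw [abs_sub_comm, ovr_dl, mul_one]
        exact hk ω hω j⟩
      ⟨fun k => Kv k + Kx k, (ovr_Sub l e he).mpr (hKv.add hKx), (Typ_true (S := l.ovr e he)).mono (by
        filter_upwards [hv', hx, hKv.1] with k a b c ω hω _
        have h2 := a ω hω j
        have h3 : |f'.X.v k ω j| ≤ Kx k := b ω hω j
        have h4 : S.dl (1 - La j) k ≤ 1 :=
          (S.dl_anti (sub_nonneg.mpr (h1 j)) k).trans (le_of_eq (S.dl_zero k))
        have h5 := abs_add_le (MvPolynomial.eval (f.X.v k ω) (trp f f' k ω j) - f'.X.v k ω j) (f'.X.v k ω j)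
        rw [sub_add_cancel] at h5
        have h6 := mul_le_mul_of_nonneg_left h4 c
        linarith)⟩
    exact ⟨K, (ovr_Sub l e he).mp hK, hT⟩
  choose K hK hT using hj
  refine ⟨fun k => ∑ j, K j k, ?_, (Typ_all (S := l.sp) _ hT).mono ?_⟩
  · exact Sub_sum K hK
  · have h2 : ∀ᶠ k in UF, ∀ j, 0 ≤ K j k := (eventually_all).mpr fun j => (hK j).1
    filter_upwards [h2] with k hk ω _ hh j
    exact (hh j).trans (Finset.single_le_sum (f := fun j => K j k) (fun i _ => hk i) (Finset.mem_univ j))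

/-- **THE CELLS of the coordinates of the second frame are functions of the cells of the coordinates of the first frame**,
over the label, up to `o(n)` bits -/
theorem trf_cell [Finite ι] (h0 : ∀ i, 0 ≤ La i) {d d' : ℕ}
    (hd : ∀ k ω j, (f.P k ω j).totalDegree ≤ d) (hd' : ∀ k ω j, (f'.P k ω j).totalDegree ≤ d') {e : ℝ} (he : 0 < e)
    (hLe : ∀ i, La i + e ≤ 1) {t : MSys (l.ovr e he) M E ι} (hv : ∀ D, (M : ℝ) ≤ t.vol D 0)
    (ht : ∃ K : ℕ → ℝ, S.Sub K ∧ ∀ᶠ k in UF, ∀ ω : (l.sp.F k).Ω, (l.sp.F k).μ ω ≠ 0 → ∀ j,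
      |t.Q.v k ω j - f.X.v k ω j| ≤ K k * S.dl e k)
    {y y' : (l.ovr e he).VV M}
    (hy : ∃ K : ℕ → ℝ, S.Sub K ∧ ∀ᶠ k in UF, ∀ ω : (l.sp.F k).Ω, (l.sp.F k).μ ω ≠ 0 → ∀ j,
      |y.v k ω j - f.X.v k ω j| ≤ K k * S.dl e k)
    (hy' : ∃ K : ℕ → ℝ, S.Sub K ∧ ∀ᶠ k in UF, ∀ ω : (l.sp.F k).Ω, (l.sp.F k).μ ω ≠ 0 → ∀ j,
      |y'.v k ω j - f'.X.v k ω j| ≤ K k * S.dl e k) {r : ℝ} (hr : r ≤ 1) :
    PLe (S := l.ovr e he) (fun k => fc (Setoid.ker (y'.cellv r k))) (fun k => fc (Setoid.ker (y.cellv r k))) := by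
  have h1 : ∀ i, La i ≤ 1 := fun i => by
    have := hLe i
    linarith
  obtain ⟨Kn, hKn, hT⟩ := trp_tame f f' h0 h1 hd hd' he hv ht
  obtain ⟨Kv, hKv, hv'⟩ := trp_val f f' h0 hd'
  obtain ⟨Ky, hKy, hyb⟩ := hy
  obtain ⟨Kz, hKz, hzb⟩ := hy'
  obtain ⟨Kx, hKx', hx⟩ := f.X.bd
  have hKx : S.Sub Kx := (sp_Sub l).mp hKx'
  obtain ⟨D, hD⟩ : ∃ D : ℕ, D = (d' + 1) ^ M * (d + 1) := ⟨_, rfl⟩
  have hBS : S.Sub (fun k => Kx k + 1) := hKx.add (S.Sub_const zero_le_one)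
  have hE : S.Sub (fun k => (Kz k + Kz k) + (Kv k + Kv k) + Kn k * (D * (Kx k + 1) ^ D * (1 + (Ky k + Ky k)))) :=
    ((hKz.add hKz).add (hKv.add hKv)).add (hKn.mul (((S.Sub_const (Nat.cast_nonneg _)).mul (Sub_pow' hBS D)).mul
      ((S.Sub_const zero_le_one).add (hKy.add hKy))))
  refine PLe_cell_typ (S := l.ovr e he) y' r (fun k => Setoid.ker (y.cellv r k)) _ ((ovr_Sub l e he).mpr hE)
    (A := fun k (ω : (l k).T.Ω) => ∀ j, nrm (trp f f' k ω j) ≤ Kn k) hT ?_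
  filter_upwards [trp_fn f f', hv', hyb, hzb, hx, hKn.1, hKv.1, hKy.1, hKz.1, hKx.1] with k c0 c1 c2 c3 c4 p1 p2 p3 p4 p5
  intro (ω : (l k).T.Ω) (ω' : (l k).T.Ω) a b (A1 : ∀ j, nrm (trp f f' k ω j) ≤ Kn k) _ z hc j
  have hfn : trp f f' k ω = trp f f' k ω' := c0 ω ω' a b z.2 z.1
  have hδ := (l.ovr e he).dl_pos r k
  have hde : S.dl e k ≤ (l.ovr e he).dl r k := by
    rw [ovr_dl]
    exact S.dl_anti (by nlinarith) k
  have hdL : S.dl (1 - La j) k ≤ (l.ovr e he).dl r k := by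
    refine (S.dl_anti ?_ k).trans hde
    have := hLe j
    linarith
  have hcl : ∀ i, |y.v k ω i - y.v k ω' i| ≤ (l.ovr e he).dl r k := fun i =>
    abs_sub_le_of_floor_eq ((l.ovr e he).dl_pos r k) (congrFun hc i)
  have hX : ∀ i, |f.X.v k ω i - f.X.v k ω' i| ≤ (1 + (Ky k + Ky k)) * (l.ovr e he).dl r k := fun i => by
    have h2 := c2 ω a i
    have h3 := c2 ω' b i
    have h4 := hcl i
    have h5 := mul_le_mul_of_nonneg_left hde p3
    rw [abs_le] at h2 h3 h4 ⊢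
    constructor <;> nlinarith
  have hB1 : 1 ≤ Kx k + 1 := by linarith
  have hxb : ∀ i, |f.X.v k ω i| ≤ Kx k + 1 := fun i => by
    have h2 : |f.X.v k ω i| ≤ Kx k := c4 ω a i
    linarith
  have hxb' : ∀ i, |f.X.v k ω' i| ≤ Kx k + 1 := fun i => by
    have h2 : |f.X.v k ω' i| ≤ Kx k := c4 ω' b i
    linarith
  have hdf := Pool.Agent.Helper77.WDG.eval_sub_le (P := trp f f' k ω j) hB1
    (show 0 ≤ (1 + (Ky k + Ky k)) * (l.ovr e he).dl r k by positivity) (D := D)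
    (by rw [hD]; exact trp_deg f f' hd hd' k ω j) (fun i _ => hxb i) (fun i _ => hxb' i) (fun i _ => hX i)
  have hdf2 : |MvPolynomial.eval (f.X.v k ω) (trp f f' k ω j) - MvPolynomial.eval (f.X.v k ω') (trp f f' k ω j)| ≤
      Kn k * (D * (Kx k + 1) ^ D * (1 + (Ky k + Ky k))) * (l.ovr e he).dl r k := by
    refine hdf.trans ?_
    have h5 := mul_le_mul_of_nonneg_right (A1 j)
      (show 0 ≤ (D * (Kx k + 1) ^ D * ((1 + (Ky k + Ky k)) * (l.ovr e he).dl r k)) by positivity)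
    linarith
  have v1 := c1 ω a j
  have v2 := c1 ω' b j
  rw [← hfn] at v2
  have w1 := c3 ω a j
  have w2 := c3 ω' b j
  have m1 := mul_le_mul_of_nonneg_left hde p4
  have m2 := mul_le_mul_of_nonneg_left hdL p2
  show |y'.v k ω j - y'.v k ω' j| ≤ _
  rw [abs_le] at v1 v2 w1 w2 hdf2 ⊢
  constructor <;> nlinarith

end two

end

end Pool.Agent.Helper18.TRF
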