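import Pool.Agent.Helper18.TRF.Scl
import Pool.Agent.Helper18.TRF.Cel

/-! COMPOSITION OF FRAMES: a frame with exponents `w_j c` of a label and a frame with exponents `w_j b` of a label of the
zoom of unit `e` give a frame with exponents `w_j (c + e b)` of the composed label; its coordinates are the coordinates of
the second frame, up to the resolution of the zoom. -/

set_option autoImplicit false

namespace Pool.Agent.Helper18.TRF

open Finset Filter Topology Pool.Agent.Helper69.RK Pool.Agent.Helper31.EC Pool.Agent.Helper31.EC.Sp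
open Pool.Agent.Helper40.EL Pool.Agent.Helper89.LX Pool.Agent.Helper3.LF Pool.Agent.Helper84.MT
open Pool.Agent.Helper36.AM
open Pool.Agent.Helper77.WDG (nrm nrm_nonneg coeff_le_nrm Tri TriW wLt_iff tm cmp nrm_le_of_coeff cmp_nrm)

noncomputable section

variable {S : Sp} {M : ℕ} {E : ℕ → ℕ} {ι κ : Type}

/-! ### weights of frames -/

/-- the polynomials of a frame are triangular of weighted degree less than `w j`, any weights proportional to the
exponents -/
theorem frm_triW {Q : S.VV M} {l : Lab S} {w : Fin M → ℝ} {c : ℝ} (f : Frm Q l (fun j => w j * c)) (hc : 0 ≤ c)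
    {v : Fin M → ℝ} (hv : ∀ j, 0 < v j) (hvw : 0 < c → v = w) (k : ℕ) (ω : (l.sp.F k).Ω) :
    TriW v (f.P k ω) where
  tri := f.tri k ω
  lt := fun j => by
    rw [wLt_iff (hv j)]
    intro a ha h0
    have h1 := f.red k ω j a ha h0
    have h2 : ∑ i, (a i : ℝ) * (w i * c) = Pool.Agent.Helper77.WDG.wt w a * c := by
      unfold Pool.Agent.Helper77.WDG.wt
      rw [Finset.sum_mul]
      exact Finset.sum_congr rfl fun i _ => by ring
    rw [h2] at h1
    rcases hc.lt_or_eq with h3 | h3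
    · rw [hvw h3]
      exact lt_of_mul_lt_mul_right h1 hc
    · rw [← h3, mul_zero, mul_zero] at h1
      exact absurd h1 (lt_irrefl 0)

/-- degrees of a frame with weights, `c ≥ 0` -/
theorem frm_deg0 {Q : S.VV M} {l : Lab S} {w : Fin M → ℝ} {c : ℝ} (f : Frm Q l (fun j => w j * c)) (hc : 0 ≤ c)
    (hw : ∀ j, 1 ≤ w j) {W : ℕ} (hW : ∀ j, w j ≤ W) (k : ℕ) (ω : (l.sp.F k).Ω) (j : Fin M) :
    (f.P k ω j).totalDegree ≤ W := by
  have hw0 : ∀ j, 0 < w j := fun j => lt_of_lt_of_le one_pos (hw j)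
  have h1 := ((frm_triW f hc hw0 (fun _ => rfl) k ω).lt j).le
  refine Finset.sup_le fun a ha => ?_
  have h2 := (Pool.Agent.Helper77.WDG.deg_le_wt hw a).trans ((h1 a ha).trans (hW j))
  exact_mod_cast h2

section cmp

variable {Q : S.VV M} {l : Lab S} {w : Fin M → ℝ} {c e b : ℝ} {he : 0 < e} {y : (l.ovr e he).VV M}
  {l' : Lab (l.ovr e he)} (f : Frm Q l (fun j => w j * c)) (g : Frm y l' (fun j => w j * b))

/-- the chart of the second frame in the coordinates of the first frame -/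
def rch (k : ℕ) (ω : (l' k).T.Ω) (j : Fin M) : MvPolynomial (Fin M) ℝ :=
  scl (S.dl (w j * c) k) (fun a => (S.dl (w a * c) k)⁻¹) (g.P k ω j)

/-- the chart of the composed frame -/
def cch (k : ℕ) (ω : (l' k).T.Ω) : Fin M → MvPolynomial (Fin M) ℝ :=
  cmp (f.P k ((l' k).p.π ω)) (rch (c := c) g k ω)

/-- the coordinates of the composed frame: the exact solution of the chart of the second frame -/
def ccx (k : ℕ) (ω : (l' k).T.Ω) (j : Fin M) : ℝ :=
  (S.dl (w j * (e * b)) k)⁻¹ * MvPolynomial.eval (f.X.v k ((l' k).p.π ω)) (inv (g.P k ω) j)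

/-- the coordinates of the composed frame are the coordinates of the second frame -/
theorem ccx_near (hb : 0 ≤ b) (hw : ∀ j, 0 < w j) {d' : ℕ} (hd' : ∀ k ω j, (g.P k ω j).totalDegree ≤ d')
    (hy : ∃ K : ℕ → ℝ, S.Sub K ∧ ∀ᶠ k in UF, ∀ ω : (l.sp.F k).Ω, (l.sp.F k).μ ω ≠ 0 → ∀ j,
      |y.v k ω j - f.X.v k ω j| ≤ K k * S.dl e k) :
    ∃ K : ℕ → ℝ, S.Sub K ∧ ∀ᶠ k in UF, ∀ ω : (l' k).T.Ω, (l' k).T.μ ω ≠ 0 → ∀ j,
      |ccx f g k ω j - g.X.v k ω j| ≤ K k * S.dl (e * (1 - w j * b)) k := by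
  obtain ⟨Ky, hKy, hyb⟩ := hy
  obtain ⟨Kc, hKc', hc⟩ := g.bd
  obtain ⟨Kp, hKp', hp⟩ := g.pt
  obtain ⟨Kx, hKx', hx⟩ := g.X.bd
  have hKc : S.Sub Kc := (ovr_Sub l e he).mp hKc'
  have hKp : S.Sub Kp := (ovr_Sub l e he).mp hKp'
  have hKx : S.Sub Kx := (ovr_Sub l e he).mp ((sp_Sub l').mp hKx')
  obtain ⟨L, hL⟩ : ∃ L : ℕ → ℝ, L = fun k => ((d' : ℝ) + 1) ^ M * Kc k * (d' * (Kx k + 1) ^ d') := ⟨_, rfl⟩
  have hLS : S.Sub L := by rw [hL]; exact Sub_L hKc hKx M d'
  have hE : S.Sub (fun k => (1 + L k) ^ M * (Kp k + Ky k)) :=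
    (Sub_pow' ((S.Sub_const zero_le_one).add hLS) M).mul (hKp.add hKy)
  refine ⟨_, hE, ?_⟩
  filter_upwards [hyb, hc, hp, hx, hKc.1, hKp.1, hKy.1, hKx.1, hE.eventually_le he] with k c1 c2 c3 c4 p1 p2 p3 p4 p5
  intro ω hω j
  have hω' : (l.sp.F k).μ ((l' k).p.π ω) ≠ 0 := (l' k).p.supp ω hω
  have hδ := S.dl_pos e k
  have hd1 : S.dl e k * 2 ^ (e * (S.F k).n) = 1 := by
    unfold Sp.dl
    rw [← Real.rpow_add (by norm_num)]
    norm_num
  have hL0 : 0 ≤ L k := by rw [hL]; positivity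
  have hs : (1 + L k) ^ M * ((Kp k + Ky k) * S.dl e k) ≤ 1 := by
    have h2 := mul_le_mul_of_nonneg_right p5 hδ.le
    rw [mul_comm (2 ^ (e * (S.F k).n)) (S.dl e k), hd1] at h2
    linarith
  have edl : ∀ r, (l.ovr e he).dl r k = S.dl (e * r) k := fun r => ovr_dl l e he r k
  have h2 := inv_val (g.tri k ω) (fun j => hd' k ω j) p1 (fun j a => c2 ω hω j a) p4
    (show 0 ≤ (Kp k + Ky k) * S.dl e k by positivity) (L := L k) (by rw [hL]) hs
    (fun a => S.dl (w a * (e * b)) k * g.X.v k ω a) (f.X.v k ((l' k).p.π ω)) (fun i => by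
      rw [abs_mul, abs_of_pos (S.dl_pos _ _)]
      have h0 : 0 ≤ w i * (e * b) := mul_nonneg (hw i).le (mul_nonneg he.le hb)
      have h3 : S.dl (w i * (e * b)) k ≤ 1 := (S.dl_anti h0 k).trans (le_of_eq (S.dl_zero k))
      have h4 : |g.X.v k ω i| ≤ Kx k := c4 ω hω i
      calc S.dl (w i * (e * b)) k * |g.X.v k ω i| ≤ 1 * |g.X.v k ω i| :=
            mul_le_mul_of_nonneg_right h3 (abs_nonneg _)
        _ ≤ Kx k := by rw [one_mul]; exact h4)
    (fun i => by
      have h3 := c1 _ hω' i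
      have h4 := c3 ω hω i
      have e1 : ∀ a, (l.ovr e he).dl (w a * b) k = S.dl (w a * (e * b)) k := fun a => by
        rw [edl]
        congr 1
        ring
      rw [edl 1, mul_one] at h4
      have e2 : (fun a => (l.ovr e he).dl (w a * b) k * g.X.v k ω a) =
          fun a => S.dl (w a * (e * b)) k * g.X.v k ω a := funext fun a => by rw [e1]
      rw [e1, e2] at h4
      have h5 : |y.v k ((l' k).p.π ω) i - (MvPolynomial.eval (fun a => S.dl (w a * (e * b)) k * g.X.v k ω a)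
        (g.P k ω i) + S.dl (w i * (e * b)) k * g.X.v k ω i)| ≤ Kp k * S.dl e k := h4
      rw [abs_le] at h3 h5 ⊢
      constructor <;> nlinarith) j
  have h3 : ccx f g k ω j - g.X.v k ω j = (S.dl (w j * (e * b)) k)⁻¹ *
      (MvPolynomial.eval (f.X.v k ((l' k).p.π ω)) (inv (g.P k ω) j) - S.dl (w j * (e * b)) k * g.X.v k ω j) := by
    unfold ccx
    rw [mul_sub, ← mul_assoc _ (S.dl (w j * (e * b)) k), inv_mul_cancel₀ (S.dl_pos _ _).ne', one_mul]
  rw [h3, abs_mul, abs_of_pos (inv_pos.mpr (S.dl_pos _ _))]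
  refine (mul_le_mul_of_nonneg_left h2 (inv_pos.mpr (S.dl_pos _ _)).le).trans (le_of_eq ?_)
  have h4 : (S.dl (w j * (e * b)) k)⁻¹ * ((1 + L k) ^ M * ((Kp k + Ky k) * S.dl e k)) =
      (1 + L k) ^ M * (Kp k + Ky k) * ((S.dl (w j * (e * b)) k)⁻¹ * S.dl e k) := by ring
  rw [h4, dl_inv_mul]
  congr 2
  ring

/-- exactness -/
theorem ccx_exact (k : ℕ) (ω : (l' k).T.Ω) (j : Fin M) :
    S.dl (w j * c) k * f.X.v k ((l' k).p.π ω) j =
      MvPolynomial.eval (fun a => S.dl (w a * (c + e * b)) k * ccx f g k ω a) (rch (c := c) g k ω j) +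
        S.dl (w j * (c + e * b)) k * ccx f g k ω j := by
  have hpos : ∀ r, S.dl r k ≠ 0 := fun r => (S.dl_pos r k).ne'
  have hsp : ∀ i, S.dl (w i * (c + e * b)) k = S.dl (w i * c) k * S.dl (w i * (e * b)) k := fun i => by
    unfold dl
    rw [← Real.rpow_add (by norm_num)]
    congr 1
    ring
  have hu : ∀ i, S.dl (w i * (c + e * b)) k * ccx f g k ω i =
      S.dl (w i * c) k * MvPolynomial.eval (f.X.v k ((l' k).p.π ω)) (inv (g.P k ω) i) := fun i => by
    unfold ccx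
    rw [hsp, mul_assoc, ← mul_assoc (S.dl (w i * (e * b)) k), mul_inv_cancel₀ (hpos _), one_mul]
  have h1 : (fun a => S.dl (w a * (c + e * b)) k * ccx f g k ω a) =
      fun i => S.dl (w i * c) k * MvPolynomial.eval (f.X.v k ((l' k).p.π ω)) (inv (g.P k ω) i) := funext hu
  rw [h1, hu]
  unfold rch
  rw [eval_scl]
  have h2 : (fun a => (S.dl (w a * c) k)⁻¹ *
      (S.dl (w a * c) k * MvPolynomial.eval (f.X.v k ((l' k).p.π ω)) (inv (g.P k ω) a))) =
      fun a => MvPolynomial.eval (f.X.v k ((l' k).p.π ω)) (inv (g.P k ω) a) := funext fun a => by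
    rw [← mul_assoc, inv_mul_cancel₀ (hpos _), one_mul]
  rw [h2, ← mul_add]
  congr 1
  have h3 := inv_eval (g.tri k ω) (f.X.v k ((l' k).p.π ω)) j
  rw [h3]
  ring

theorem rch_triW (hb : 0 ≤ b) {v : Fin M → ℝ} (hv : ∀ j, 0 < v j)
    (hvw : 0 < b → v = w) (k : ℕ) (ω : (l' k).T.Ω) : TriW v (rch (c := c) g k ω) :=
  TriW.scl (frm_triW g hb hv hvw k ω) (fun j => S.dl (w j * c) k) (fun a => (S.dl (w a * c) k)⁻¹)

theorem prod_dl_inv (w : Fin M → ℝ) (c : ℝ) (k : ℕ) (a : Fin M →₀ ℕ) :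
    ∏ i, (S.dl (w i * c) k)⁻¹ ^ a i = S.dl (-(Pool.Agent.Helper77.WDG.wt w a * c)) k := by
  unfold dl Pool.Agent.Helper77.WDG.wt
  rw [Finset.sum_mul, neg_mul, neg_neg, Finset.sum_mul, Real.rpow_sum_of_pos (by norm_num)]
  refine Finset.prod_congr rfl fun i _ => ?_
  rw [← Real.rpow_neg (by norm_num), ← Real.rpow_natCast, ← Real.rpow_mul (by norm_num)]
  congr 1
  ring

theorem rch_nrm (hc : 0 ≤ c) (hb : 0 ≤ b) (hw : ∀ j, 0 < w j) (k : ℕ) (ω : (l' k).T.Ω) (j : Fin M) :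
    nrm (rch (c := c) g k ω j) ≤ nrm (g.P k ω j) := by
  refine nrm_scl fun a ha => ?_
  rw [prod_dl_inv]
  have h1 : S.dl (w j * c) k * S.dl (-(Pool.Agent.Helper77.WDG.wt w a * c)) k =
      S.dl ((w j - Pool.Agent.Helper77.WDG.wt w a) * c) k := by
    unfold dl
    rw [← Real.rpow_add (by norm_num)]
    congr 1
    ring
  rw [h1, abs_of_pos (S.dl_pos _ _)]
  have h2 : Pool.Agent.Helper77.WDG.wt w a ≤ w j :=
    ((frm_triW g hb hw (fun _ => rfl) k ω).lt j).le a ha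
  exact (S.dl_anti (mul_nonneg (sub_nonneg.mpr h2) hc) k).trans (le_of_eq (S.dl_zero k))

/-- **THE COMPOSED FRAME** -/
def cmf (hc : 0 ≤ c) (hb : 0 ≤ b) (hw : ∀ j, 0 < w j) (hwb : ∀ j, w j * b ≤ 1) {d d' : ℕ}
    (hd : ∀ k ω j, (f.P k ω j).totalDegree ≤ d) (hd' : ∀ k ω j, (g.P k ω j).totalDegree ≤ d')
    (hy : ∃ K : ℕ → ℝ, S.Sub K ∧ ∀ᶠ k in UF, ∀ ω : (l.sp.F k).Ω, (l.sp.F k).μ ω ≠ 0 → ∀ j,
      |y.v k ω j - f.X.v k ω j| ≤ K k * S.dl e k) :
    Frm Q (l.comp e he l') (fun j => w j * (c + e * b)) where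
  X :=
    { v := fun k (ω : (l' k).T.Ω) j => ccx f g k ω j
      bd := by
        obtain ⟨K, hK, h1⟩ := ccx_near f g hb hw hd' hy
        obtain ⟨Kx, hKx', hx⟩ := g.X.bd
        have hKx : S.Sub Kx := (ovr_Sub l e he).mp ((sp_Sub l').mp hKx')
        refine ⟨fun k => K k + Kx k, (sp_Sub _).mpr (hK.add hKx), ?_⟩
        filter_upwards [h1, hx, hK.1] with k a1 a2 p1
        intro (ω : (l' k).T.Ω) (hω : (l' k).T.μ ω ≠ 0) j
        have h2 := a1 ω hω j
        have h3 : |g.X.v k ω j| ≤ Kx k := a2 ω hω j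
        have h4 : S.dl (e * (1 - w j * b)) k ≤ 1 :=
          (S.dl_anti (mul_nonneg he.le (sub_nonneg.mpr (hwb j))) k).trans (le_of_eq (S.dl_zero k))
        have h5 := abs_add_le (ccx f g k ω j - g.X.v k ω j) (g.X.v k ω j)
        rw [sub_add_cancel] at h5
        have h6 := mul_le_mul_of_nonneg_left h4 p1
        show |ccx f g k ω j| ≤ K k + Kx k
        linarith }
  P := fun k (ω : (l' k).T.Ω) => cch f g k ω
  tri := fun k ω => Tri.cmp (f.tri k _) (rch_triW g hb hw (fun _ => rfl) k ω).tri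
  red := by
    intro k ω j a ha h0
    by_cases hpos : 0 < c + e * b
    · have h1 : TriW w (cch f g k ω) := TriW.cmp (frm_triW f hc hw (fun _ => rfl) k _)
        (rch_triW g hb hw (fun _ => rfl) k ω)
      have h2 := (wLt_iff (hw j)).mp (h1.lt j) a ha h0
      have h3 : ∑ i, (a i : ℝ) * (w i * (c + e * b)) = Pool.Agent.Helper77.WDG.wt w a * (c + e * b) := by
        unfold Pool.Agent.Helper77.WDG.wt
        rw [Finset.sum_mul]
        exact Finset.sum_congr rfl fun i _ => by ring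
      rw [h3]
      exact mul_lt_mul_of_pos_right h2 hpos
    · exfalso
      have hc0 : c = 0 := by
        have := mul_nonneg he.le hb
        linarith
      have hb0 : b = 0 := by
        have h1 : e * b ≤ 0 := by linarith
        by_contra hn
        have h2 : 0 < b := lt_of_le_of_ne hb (Ne.symm hn)
        have := mul_pos he h2
        linarith
      have h1 : TriW (fun _ => (1 : ℝ)) (cch f g k ω) := TriW.cmp
        (frm_triW f hc (fun _ => one_pos) (fun h => absurd h (by rw [hc0]; exact lt_irrefl 0)) k _)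
        (rch_triW g hb (fun _ => one_pos) (fun h => absurd h (by rw [hb0]; exact lt_irrefl 0)) k ω)
      have h2 := (wLt_iff one_pos).mp (h1.lt j) a ha h0
      rw [Pool.Agent.Helper77.WDG.wt_one] at h2
      have h3 : (a.sum fun _ n => n) = 0 := by
        have : (a.sum fun _ n => n) < 1 := by exact_mod_cast h2
        omega
      apply h0
      rw [Finsupp.sum_fintype _ _ (fun _ => rfl), Finset.sum_eq_zero_iff] at h3
      ext i
      exact h3 i (Finset.mem_univ i)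
  fn := by
    filter_upwards [f.fn, g.fn] with k h1 h2 ω ω' (a : (l' k).T.μ ω ≠ 0) (b' : (l' k).T.μ ω' ≠ 0) z v
    have a1 : (l k).T.μ ((l' k).p.π ω) ≠ 0 := (l' k).p.supp ω a
    have a2 : (l k).T.μ ((l' k).p.π ω') ≠ 0 := (l' k).p.supp ω' b'
    have z1 : (l k).T.Z ((l' k).p.π ω) ((l' k).p.π ω') := ((l k).p.hZ _ _ a1 a2).mpr z
    have e1 : f.P k ((l' k).p.π ω) = f.P k ((l' k).p.π ω') := h1 _ _ a1 a2 z1 v.1
    have z2 : (l' k).T.Z ω ω' := ((l' k).p.hZ ω ω' a b').mpr ⟨v.1, z1⟩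
    have e2 : g.P k ω = g.P k ω' := h2 ω ω' a b' z2 v.2
    show cch f g k ω = cch f g k ω'
    unfold cch rch
    rw [e1, e2]
  bd := by
    obtain ⟨Kc, hKc, hcb⟩ := f.bd
    obtain ⟨Kg, hKg', hgb⟩ := g.bd
    have hKg : S.Sub Kg := (ovr_Sub l e he).mp hKg'
    have h1 : S.Sub (fun k => ((d' : ℝ) + 1) ^ M * Kg k) := (S.Sub_const (by positivity)).mul hKg
    have h2 : S.Sub (fun k => ((d : ℝ) + 1) ^ M * Kc k) := (S.Sub_const (by positivity)).mul hKc
    refine ⟨fun k => ((d' : ℝ) + 1) ^ M * Kg k + ((d : ℝ) + 1) ^ M * Kc k * (1 + ((d' : ℝ) + 1) ^ M * Kg k) ^ d,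
      h1.add (h2.mul (Sub_pow' ((S.Sub_const zero_le_one).add h1) d)), ?_⟩
    filter_upwards [hcb, hgb, hKc.1, hKg.1] with k c1 c2 p1 p2
    intro (ω : (l' k).T.Ω) (hω : (l' k).T.μ ω ≠ 0) j a
    have a1 : (l k).T.μ ((l' k).p.π ω) ≠ 0 := (l' k).p.supp ω hω
    have n1 : ∀ j, nrm (f.P k ((l' k).p.π ω) j) ≤ ((d : ℝ) + 1) ^ M * Kc k := fun j => by
      have := nrm_le_of_coeff (hd k ((l' k).p.π ω) j) p1 (fun a => c1 _ a1 j a)
      rwa [Fintype.card_fin] at this
    have n2 : ∀ j, nrm (rch (c := c) g k ω j) ≤ ((d' : ℝ) + 1) ^ M * Kg k := fun j => by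
      refine (rch_nrm g hc hb hw k ω j).trans ?_
      have := nrm_le_of_coeff (hd' k ω j) p2 (fun a => c2 ω hω j a)
      rwa [Fintype.card_fin] at this
    refine (coeff_le_nrm _ a).trans ?_
    exact cmp_nrm (by positivity) (fun j => hd k _ j) n1 n2 j
  pt := by
    obtain ⟨K, hK, hp⟩ := f.pt
    refine ⟨K, hK, ?_⟩
    filter_upwards [hp] with k h1
    intro (ω : (l' k).T.Ω) (hω : (l' k).T.μ ω ≠ 0) j
    have a1 : (l k).T.μ ((l' k).p.π ω) ≠ 0 := (l' k).p.supp ω hω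
    have h2 := h1 _ a1 j
    have hU : (fun i => S.dl (w i * c) k * f.X.v k ((l' k).p.π ω) i) =
        fun i => MvPolynomial.eval (fun a => S.dl (w a * (c + e * b)) k * ccx f g k ω a) (tm (rch (c := c) g k ω) i) := by
      funext i
      rw [Pool.Agent.Helper77.WDG.eval_tm, ccx_exact]
      ring
    have h3 : MvPolynomial.eval (fun i => S.dl (w i * c) k * f.X.v k ((l' k).p.π ω) i) (f.P k ((l' k).p.π ω) j) +
        S.dl (w j * c) k * f.X.v k ((l' k).p.π ω) j =
        MvPolynomial.eval (fun a => S.dl (w a * (c + e * b)) k * ccx f g k ω a) (cch f g k ω j) +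
          S.dl (w j * (c + e * b)) k * ccx f g k ω j := by
      have h4 : MvPolynomial.eval (fun a => S.dl (w a * (c + e * b)) k * ccx f g k ω a) (cch f g k ω j) =
          MvPolynomial.eval (fun a => S.dl (w a * (c + e * b)) k * ccx f g k ω a) (rch (c := c) g k ω j) +
          MvPolynomial.eval (fun i => S.dl (w i * c) k * f.X.v k ((l' k).p.π ω) i) (f.P k ((l' k).p.π ω) j) := by
        unfold cch Pool.Agent.Helper77.WDG.cmp
        rw [map_add, Pool.Agent.Helper77.WDG.eval_bind, hU]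
      rw [h4, ccx_exact]
      ring
    show |(l.pj.vv Q).v k ((l' k).p.π ω) j - (MvPolynomial.eval (fun a => S.dl (w a * (c + e * b)) k * ccx f g k ω a)
      (cch f g k ω j) + S.dl (w j * (c + e * b)) k * ccx f g k ω j)| ≤ K k * S.dl 1 k
    rw [← h3]
    exact h2

end cmp

end

end Pool.Agent.Helper18.TRF
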