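import Pool.Agent.Helper18.PRM.Frr

/-! FRAMES OVER FINER LABELS: a frame over the label `l` is a frame over every label which refines `l` (joins). -/

set_option autoImplicit false

namespace Pool.Agent.Helper18.TRF

open Finset Filter Topology Pool.Agent.Helper69.RK Pool.Agent.Helper31.EC Pool.Agent.Helper31.EC.Sp
open Pool.Agent.Helper40.EL Pool.Agent.Helper89.LX Pool.Agent.Helper3.LF Pool.Agent.Helper84.MT
open Pool.Agent.Helper36.AM

noncomputable section

variable {S : Sp} {M : ℕ} {Q : S.VV M} {l L : Lab S} {La : Fin M → ℝ}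

/-- `L` REFINES `l`: the space of `L` is an extension of the space of `l`, compatible with the projections and the labels -/
structure Rfn (L l : Lab S) where
  q : ∀ k, FPj (L k).T (l k).T
  hn : ∀ k, (L k).T.n = (l k).T.n
  pr : ∀ k ω, (L k).T.μ ω ≠ 0 → (l k).p.π ((q k).π ω) = (L k).p.π ω
  lb : ∀ k ω ω', (L k).T.μ ω ≠ 0 → (L k).T.μ ω' ≠ 0 → (L k).T.Z ω ω' → (L k).V ω ω' →
    (l k).V ((q k).π ω) ((q k).π ω')

namespace Rfn

variable (r : Rfn L l)

/-- the projection -/
def pj : Pj L.sp l.sp where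
  π := fun k => (r.q k).π
  law := fun k => (r.q k).law
  hZ := fun k => (r.q k).hZ
  hn := r.hn

/-- the label itself -/
def refl (l : Lab S) : Rfn l l where
  q := fun k => ⟨fun ω => ω, (FLab.triv (l k).T).p.law, fun _ _ _ _ => Iff.rfl⟩
  hn := fun _ => rfl
  pr := fun _ _ _ => rfl
  lb := fun _ _ _ _ _ _ h => h

/-- the left part of a join -/
def left (l l' : Lab S) : Rfn (l.join l') l where
  q := fun k => ((l k).am (l' k)).p1
  hn := fun k => by
    have h1 : ((l.join l') k).T.n = (S.F k).n := ((l.join l') k).hn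
    rw [h1, (l k).hn]
  pr := fun _ _ _ => rfl
  lb := fun _ _ _ _ _ _ h => h.1

/-- the right part of a join -/
def right (l l' : Lab S) : Rfn (l.join l') l' where
  q := fun k => ((l k).am (l' k)).p2
  hn := fun k => by
    have h1 : ((l.join l') k).T.n = (S.F k).n := ((l.join l') k).hn
    rw [h1, (l' k).hn]
  pr := fun k w hw => (((l k).am (l' k)).supp w hw).1.symm
  lb := fun _ _ _ _ _ _ h => h.2

end Rfn

/-- THE FRAME over a finer label -/
def frx (r : Rfn L l) (f : Frm Q l La) : Frm Q L La where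
  X := r.pj.vv f.X
  P := fun k ω => f.P k ((r.q k).π ω)
  tri := fun k ω j i hi => f.tri k _ j i hi
  red := fun k ω j a ha h => f.red k _ j a ha h
  fn := by
    filter_upwards [f.fn] with k hk ω ω' h1 h2 h3 h4
    exact hk _ _ ((r.q k).supp ω h1) ((r.q k).supp ω' h2) (((r.q k).hZ ω ω' h1 h2).mp h3) (r.lb k ω ω' h1 h2 h3 h4)
  bd := by
    obtain ⟨K, hK, hb⟩ := f.bd
    refine ⟨K, hK, ?_⟩
    filter_upwards [hb] with k hk ω hω j a
    exact hk _ ((r.q k).supp ω hω) j a
  pt := by
    obtain ⟨K, hK, hb⟩ := f.pt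
    refine ⟨K, hK, ?_⟩
    filter_upwards [hb] with k hk ω hω j
    have h1 := hk _ ((r.q k).supp ω hω) j
    have h2 : (l.pj.vv Q).v k ((r.q k).π ω) j = (L.pj.vv Q).v k ω j := by
      show Q.v k ((l k).p.π ((r.q k).π ω)) j = Q.v k ((L k).p.π ω) j
      rw [r.pr k ω hω]
    rw [h2] at h1
    exact h1

theorem frx_X (r : Rfn L l) (f : Frm Q l La) : (frx r f).X = r.pj.vv f.X := rfl

end

end Pool.Agent.Helper18.TRF
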