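import Pool.Agent.Helper18.TRF.Cel
import Pool.Agent.Helper26.BXD.Use
import Pool.Agent.Helper87.NSL.Inv
import Pool.Agent.Helper49.KL.Lit

/-! TAME COEFFICIENTS for the labels of a class: if the forms of the K-labels have no gain at the point, a polynomial of
bounded degree which is known to the base and whose value near the point is tame has tame coefficients on a typical
event. -/

set_option autoImplicit false

namespace Pool.Agent.Helper18.TRF

open Finset Filter Topology Matrix Pool.Agent.Helper69.RK Pool.Agent.Helper31.EC Pool.Agent.Helper31.EC.Sp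
open Pool.Agent.Helper40.EL Pool.Agent.Helper89.LX Pool.Agent.Helper3.LF Pool.Agent.Helper84.MT
open Pool.Agent.Helper36.AM
open Pool.Agent.Helper77.WDG (nrm nrm_nonneg coeff_le_nrm)
open Pool.Agent.Helper7.GZ (PLe_cell_typ Typ_all cfv pol_cfv)
open Pool.Agent.Helper26.BXD (NG Fm nsv)
open Pool.Agent.Helper87.NSL (KnS)

noncomputable section

variable {S : Sp} {M D : ℕ} {E : ℕ → ℕ} {ι κ : Type}

/-- FULL HULL over the base: a polynomial of bounded degree which is known to the base and whose value near the point is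
tame has tame coefficients on a typical event -/
def Ful (Q : S.VV M) : Prop := ∀ (D : ℕ) (f : ∀ k, (S.F k).Ω → MvPolynomial (Fin M) ℝ),
  (∀ k ω, (f k ω).totalDegree ≤ D) →
    (∀ᶠ k in UF, ∀ ω ω', (S.F k).μ ω ≠ 0 → (S.F k).μ ω' ≠ 0 → (S.F k).Z ω ω' → f k ω = f k ω') →
      ∀ X : ∀ k, (S.F k).Ω → Fin M → ℝ, (∃ K : ℕ → ℝ, S.Sub K ∧ ∀ᶠ k in UF, ∀ ω, (S.F k).μ ω ≠ 0 → ∀ j,
        |X k ω j - Q.v k ω j| ≤ K k * S.dl 1 k) →
          (∃ K : ℕ → ℝ, S.Sub K ∧ S.Typ fun k ω => |MvPolynomial.eval (X k ω) (f k ω)| ≤ K k) →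
            ∃ K : ℕ → ℝ, S.Sub K ∧ S.Typ fun k ω => nrm (f k ω) ≤ K k

/-- ordinary labels of a system -/
theorem ful_vol [Finite ι] {s : MSys S M E ι} (hv : ∀ D, (M : ℝ) ≤ s.vol D 0) : Ful s.Q :=
  fun _ f deg hf X hX hb => tame_coeff hv f deg hf X hX hb

/-! ### no small values -/

/-- the form of one row -/
def one (c : Mon M D → ℝ) : Matrix (Mon M D) (Mon M D) ℝ := Matrix.of fun a b => c a * c b

theorem one_symm (c : Mon M D → ℝ) : (one c).IsSymm := by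
  ext a b
  show c b * c a = c a * c b
  ring

theorem one_dv (c x : Mon M D → ℝ) : x ⬝ᵥ (one c *ᵥ x) = (c ⬝ᵥ x) ^ 2 := by
  have h1 : one c *ᵥ x = fun a => c a * (c ⬝ᵥ x) := by
    funext a
    show ∑ b, c a * c b * x b = c a * ∑ b, c b * x b
    rw [Finset.mul_sum]
    exact Finset.sum_congr rfl fun b _ => by ring
  rw [h1]
  show ∑ a, x a * (c a * (c ⬝ᵥ x)) = _
  have h2 : c ⬝ᵥ x = ∑ a, c a * x a := rfl
  rw [sq]
  conv_rhs => rw [h2, Finset.sum_mul]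
  exact Finset.sum_congr rfl fun a _ => by rw [h2]; ring

theorem one_trace (c : Mon M D → ℝ) (a : Mon M D) : c a ^ 2 ≤ (one c).trace := by
  show c a ^ 2 ≤ ∑ b, c b * c b
  have h1 : c a * c a ≤ ∑ b, c b * c b :=
    Finset.single_le_sum (f := fun b => c b * c b) (fun b _ => mul_self_nonneg (c b)) (Finset.mem_univ a)
  linarith [sq (c a)]

open Classical in
/-- the form of the normalised polynomial, over the base -/
def nfm (D : ℕ) (f : ∀ k, (S.F k).Ω → MvPolynomial (Fin M) ℝ) : Fm (Lab.ofZ (S := S) fun _ => ⊤) M D where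
  g := fun k (ω : (S.F k).Ω) =>
    if ∀ ω ω', (S.F k).μ ω ≠ 0 → (S.F k).μ ω' ≠ 0 → (S.F k).Z ω ω' → f k ω = f k ω' then one (cfv D (nmz (f k ω))) else 0
  ms := fun k (ω : (S.F k).Ω) (ω' : (S.F k).Ω) a b _ z => by
    by_cases h : ∀ ω ω', (S.F k).μ ω ≠ 0 → (S.F k).μ ω' ≠ 0 → (S.F k).Z ω ω' → f k ω = f k ω'
    · rw [if_pos h, if_pos h, h ω ω' a b z]
    · rw [if_neg h, if_neg h]
  sy := fun k (ω : (S.F k).Ω) => by
    split_ifs
    · exact one_symm _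
    · exact Matrix.isSymm_zero
  nn := fun k (ω : (S.F k).Ω) x => by
    split_ifs
    · rw [one_dv]
      positivity
    · rw [Matrix.zero_mulVec, dotProduct_zero]

/-- the monomials of a polynomial of bounded degree -/
theorem exists_mon {q : MvPolynomial (Fin M) ℝ} (hq : q.totalDegree ≤ D) {a : Fin M →₀ ℕ}
    (ha : q.coeff a ≠ 0) : ∃ b : Mon M D, b.ex = a := by
  have h3 : (a.sum fun _ e => e) ≤ D := (MvPolynomial.le_totalDegree (MvPolynomial.mem_support_iff.mpr ha)).trans hq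
  rw [Finsupp.sum_fintype _ _ (fun _ => rfl)] at h3
  have h4 : ∀ i, a i < D + 1 := fun i =>
    Nat.lt_succ_of_le ((Finset.single_le_sum (f := fun i => a i) (fun _ _ => Nat.zero_le _)
      (Finset.mem_univ i)).trans h3)
  refine ⟨⟨fun i => ⟨a i, h4 i⟩, h3⟩, ?_⟩
  ext i
  rfl

/-- **NO SMALL VALUES** of normalised polynomials -/
theorem nmz_low [Finite κ] {Q : S.VV M} {A : κ → Part S} {R : ∀ k, Setoid (S.F k).Ω} (hP : KnS R Q.v)
    (hN : NG (LC.kz fun k => fc (R k)) Q A) {D : ℕ}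
    (f : ∀ k, (S.F k).Ω → MvPolynomial (Fin M) ℝ) (deg : ∀ k ω, (f k ω).totalDegree ≤ D)
    (hf : ∀ᶠ k in UF, ∀ ω ω', (S.F k).μ ω ≠ 0 → (S.F k).μ ω' ≠ 0 → (S.F k).Z ω ω' → f k ω = f k ω') :
    ∃ K : ℕ → ℝ, S.Sub K ∧ S.Typ fun k ω => 1 ≤ K k * |MvPolynomial.eval (Q.v k ω) (nmz (f k ω))| := by
  classical
  have hl : (Lab.ofZ (S := S) fun _ => ⊤).DMf A := (Lab.ofZ_DMf _).mpr fun i => by
    have e : (fun k => h (fc (⊤ : Setoid (S.F k).Ω) : FL (S.F k)) (A i k)) = fun _ => 0 := by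
      funext k
      exact h_zero bot_le
    show Nul S (fun k => h (fc (⊤ : Setoid (S.F k).Ω) : FL (S.F k)) (A i k))
    rw [e]
    exact Nul_zero S
  obtain ⟨C, hC⟩ : ∃ C : ℝ, C = ((D : ℝ) + 1) ^ M := ⟨_, rfl⟩
  have hC0 : 0 < C := by rw [hC]; positivity
  have hC1 : 1 ≤ C := by
    rw [hC]
    exact one_le_pow₀ (by linarith [Nat.cast_nonneg (α := ℝ) D])
  have key : ∀ e : ℝ, 0 < e → S.Typ fun k ω =>
      2 ^ (((0 : ℝ) - e) * (S.F k).n) ≤ (C * MvPolynomial.eval (Q.v k ω) (nmz (f k ω))) ^ 2 := by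
    intro e he
    have h1 := nsv hN hl (nfm D f) (by
      intro b hb
      have hk0 : (LC.kz fun k => fc (R k)).ev (Lab.ofZ (S := S) fun _ => ⊤) :=
        Pool.Agent.Helper49.KL.kz_ofZ (Eventually.of_forall fun k => le_top)
      filter_upwards [hk0, hP] with k hk hp
      exact Pool.Agent.Helper89.RAK.addW_kz ((Lab.ofZ (S := S) fun _ => ⊤) k) _ (R k) hk
        fun ω ω' a a' hV hZ hr => hb k ω ω' a a' hV hZ (hp ω ω' a a' hZ hr)) e he
    refine squeeze_zero' (Eventually.of_forall fun k => Sp.mass_res_nonneg k _) ?_ h1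
    filter_upwards [hf] with k hk
    refine FSp.pb_mono (S.F k) ?_
    intro ω hω h2 h3
    apply h2
    have e1 : (nfm D f).g k ω = one (cfv D (nmz (f k ω))) := if_pos hk
    rw [e1, one_dv] at h3
    have e2 : MvPolynomial.eval (Q.v k ω) (nmz (f k ω)) = cfv D (nmz (f k ω)) ⬝ᵥ vv (Q.v k ω) := by
      conv_lhs => rw [← pol_cfv (nmz (f k ω)) (nmz_deg (deg k ω))]
      exact eval_pol _ _
    have h4 : (one (cfv D (nmz (f k ω)))).trace ≤
        2 ^ (e * (S.F k).n) * (cfv D (nmz (f k ω)) ⬝ᵥ vv (Q.v k ω)) ^ 2 := h3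
    rw [← e2] at h4
    obtain ⟨a, ha⟩ := ex_coeff (nmz_deg (deg k ω)) (nmz_nrm (f k ω))
    rw [← hC] at ha
    have ha0 : (nmz (f k ω)).coeff a ≠ 0 := by
      intro h0
      rw [h0, abs_zero, mul_zero] at ha
      linarith
    obtain ⟨b, hb⟩ := exists_mon (nmz_deg (deg k ω)) ha0
    have h5 : (nmz (f k ω)).coeff a ^ 2 ≤ (one (cfv D (nmz (f k ω)))).trace := by
      have h6 := one_trace (cfv D (nmz (f k ω))) b
      have h7 : cfv D (nmz (f k ω)) b = (nmz (f k ω)).coeff a := by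
        show (nmz (f k ω)).coeff b.ex = _
        rw [hb]
      rw [h7] at h6
      exact h6
    have h8 : 1 ≤ C ^ 2 * (nmz (f k ω)).coeff a ^ 2 := by
      have h9 : (1 : ℝ) ≤ (C * |(nmz (f k ω)).coeff a|) ^ 2 := one_le_pow₀ ha
      rw [mul_pow, sq_abs] at h9
      exact h9
    have h10 : 1 ≤ C ^ 2 * (2 ^ (e * (S.F k).n) * MvPolynomial.eval (Q.v k ω) (nmz (f k ω)) ^ 2) :=
      h8.trans (mul_le_mul_of_nonneg_left (h5.trans h4) (by positivity))
    have h11 : (2 : ℝ) ^ (((0 : ℝ) - e) * (S.F k).n) * 2 ^ (e * (S.F k).n) = 1 := by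
      rw [← Real.rpow_add (by norm_num)]
      have : ((0 : ℝ) - e) * (S.F k).n + e * (S.F k).n = 0 := by ring
      rw [this, Real.rpow_zero]
    have h12 : (0 : ℝ) < 2 ^ (((0 : ℝ) - e) * (S.F k).n) := by positivity
    have h13 := mul_le_mul_of_nonneg_left h10 h12.le
    have h14 : (2 : ℝ) ^ (((0 : ℝ) - e) * (S.F k).n) *
        (C ^ 2 * (2 ^ (e * (S.F k).n) * MvPolynomial.eval (Q.v k ω) (nmz (f k ω)) ^ 2)) =
        ((2 : ℝ) ^ (((0 : ℝ) - e) * (S.F k).n) * 2 ^ (e * (S.F k).n)) *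
          (C * MvPolynomial.eval (Q.v k ω) (nmz (f k ω))) ^ 2 := by ring
    rw [h14, h11, mul_one, one_mul] at h13
    exact h13
  obtain ⟨K, hK, hK1, hT⟩ := typ_sub_ge (fun k ω => (C * MvPolynomial.eval (Q.v k ω) (nmz (f k ω))) ^ 2) 0 key
  refine ⟨fun k => K k * C, hK.mul (S.Sub_const hC0.le), hT.mono (Eventually.of_forall fun k ω _ h1 => ?_)⟩
  rw [zero_mul, Real.rpow_zero] at h1
  show 1 ≤ K k * C * |MvPolynomial.eval (Q.v k ω) (nmz (f k ω))|
  have h2 := hK1 k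
  have h3 : K k * (C * MvPolynomial.eval (Q.v k ω) (nmz (f k ω))) ^ 2 ≤
      (K k * C * |MvPolynomial.eval (Q.v k ω) (nmz (f k ω))|) ^ 2 := by
    have e3 : (K k * C * |MvPolynomial.eval (Q.v k ω) (nmz (f k ω))|) ^ 2 =
        K k * (K k * (C * MvPolynomial.eval (Q.v k ω) (nmz (f k ω))) ^ 2) := by
      rw [mul_pow, sq_abs]
      ring
    rw [e3]
    exact le_mul_of_one_le_left (by positivity) h2
  have h4 : 0 ≤ K k * C * |MvPolynomial.eval (Q.v k ω) (nmz (f k ω))| := by positivity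
  by_contra hc
  push Not at hc
  have h5 : (K k * C * |MvPolynomial.eval (Q.v k ω) (nmz (f k ω))|) ^ 2 < 1 := by
    have := pow_lt_one₀ h4 hc two_ne_zero
    exact this
  linarith

/-- tame coefficients from the lower bound of the normalised polynomials -/
theorem tame_of_low {Q : S.VV M} {D : ℕ} (f : ∀ k, (S.F k).Ω → MvPolynomial (Fin M) ℝ)
    (deg : ∀ k ω, (f k ω).totalDegree ≤ D)
    (h1 : ∃ K : ℕ → ℝ, S.Sub K ∧ S.Typ fun k ω => 1 ≤ K k * |MvPolynomial.eval (Q.v k ω) (nmz (f k ω))|)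
    (X : ∀ k, (S.F k).Ω → Fin M → ℝ) (hX : ∃ K : ℕ → ℝ, S.Sub K ∧ ∀ᶠ k in UF, ∀ ω, (S.F k).μ ω ≠ 0 → ∀ j,
      |X k ω j - Q.v k ω j| ≤ K k * S.dl 1 k)
    (hb : ∃ K : ℕ → ℝ, S.Sub K ∧ S.Typ fun k ω => |MvPolynomial.eval (X k ω) (f k ω)| ≤ K k) :
    ∃ K : ℕ → ℝ, S.Sub K ∧ S.Typ fun k ω => nrm (f k ω) ≤ K k := by
  obtain ⟨K1, hK1, h1⟩ := h1
  obtain ⟨K2, hK2, h2⟩ := hX
  obtain ⟨K3, hK3, h3⟩ := hb
  obtain ⟨KQ, hKQ, hQ⟩ := Q.bd
  obtain ⟨B, hB⟩ : ∃ B : ℕ → ℝ, B = fun k => KQ k + K2 k + 1 := ⟨_, rfl⟩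
  have hBS : S.Sub B := by
    rw [hB]
    exact (hKQ.add hK2).add (S.Sub_const zero_le_one)
  have hE : S.Sub (fun k => 2 * (K1 k * (D * B k ^ D * K2 k))) :=
    (S.Sub_const (by norm_num)).mul (hK1.mul (((S.Sub_const (Nat.cast_nonneg _)).mul (Sub_pow' hBS D)).mul hK2))
  refine ⟨fun k => 2 * (K1 k * K3 k) + 1, ((S.Sub_const (by norm_num)).mul (hK1.mul hK3)).add
    (S.Sub_const zero_le_one), ?_⟩
  refine (h1.and h3).mono ?_
  filter_upwards [h2, hQ, hKQ.1, hK2.1, hK1.1, hK3.1, hE.eventually_le one_pos] with k a2 aQ p1 p2 p3 p4 p5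
  intro ω hω hh
  have c1 : 1 ≤ K1 k * |MvPolynomial.eval (Q.v k ω) (nmz (f k ω))| := hh.1
  have c2 : |MvPolynomial.eval (X k ω) (f k ω)| ≤ K3 k := hh.2
  have hd1 : S.dl 1 k * 2 ^ (1 * (S.F k).n) = 1 := by
    unfold Sp.dl
    rw [← Real.rpow_add (by norm_num)]
    norm_num
  have hδ := S.dl_pos 1 k
  have hdl : S.dl 1 k ≤ 1 := (S.dl_anti zero_le_one k).trans (le_of_eq (S.dl_zero k))
  have hB1 : 1 ≤ B k := by
    rw [hB]
    show 1 ≤ KQ k + K2 k + 1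
    linarith
  have bQ : ∀ i, |Q.v k ω i| ≤ B k := fun i => by
    have := aQ ω hω i
    rw [hB]
    show _ ≤ KQ k + K2 k + 1
    linarith
  have bX : ∀ i, |X k ω i| ≤ B k := fun i => by
    have h5 := aQ ω hω i
    have h6 := a2 ω hω i
    have h7 : K2 k * S.dl 1 k ≤ K2 k := mul_le_of_le_one_right p2 hdl
    have h8 := abs_add_le (X k ω i - Q.v k ω i) (Q.v k ω i)
    rw [sub_add_cancel] at h8
    rw [hB]
    show _ ≤ KQ k + K2 k + 1
    linarith
  have hdiff := Pool.Agent.Helper77.WDG.eval_sub_le (P := nmz (f k ω)) hB1 (mul_nonneg p2 hδ.le)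
    (nmz_deg (deg k ω)) (fun i _ => bQ i) (fun i _ => bX i) (fun i _ => by
      have := a2 ω hω i
      rw [abs_sub_comm] at this
      exact this)
  have hdiff2 : |MvPolynomial.eval (Q.v k ω) (nmz (f k ω)) - MvPolynomial.eval (X k ω) (nmz (f k ω))| ≤
      (D * B k ^ D * K2 k) * S.dl 1 k := by
    refine hdiff.trans ?_
    have h5 : nrm (nmz (f k ω)) * (D * B k ^ D * (K2 k * S.dl 1 k)) ≤ 1 * (D * B k ^ D * (K2 k * S.dl 1 k)) :=
      mul_le_mul_of_nonneg_right (nmz_nrm_le _) (by positivity)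
    linarith
  have hsm : K1 k * ((D * B k ^ D * K2 k) * S.dl 1 k) ≤ 1 / 2 := by
    have h5 := mul_le_mul_of_nonneg_right p5 hδ.le
    rw [mul_comm (2 ^ (1 * (S.F k).n)) (S.dl 1 k), hd1] at h5
    linarith
  have c3 : 1 ≤ 2 * (K1 k * |MvPolynomial.eval (X k ω) (nmz (f k ω))|) := by
    have h5 : |MvPolynomial.eval (Q.v k ω) (nmz (f k ω))| ≤ |MvPolynomial.eval (X k ω) (nmz (f k ω))| +
        (D * B k ^ D * K2 k) * S.dl 1 k := by
      have h6 := abs_sub_abs_le_abs_sub (MvPolynomial.eval (Q.v k ω) (nmz (f k ω)))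
        (MvPolynomial.eval (X k ω) (nmz (f k ω)))
      linarith
    have h7 := mul_le_mul_of_nonneg_left h5 p3
    rw [mul_add] at h7
    linarith
  show nrm (f k ω) ≤ 2 * (K1 k * K3 k) + 1
  by_cases h : 1 ≤ nrm (f k ω)
  · have h0 : 0 < nrm (f k ω) := lt_of_lt_of_le one_pos h
    have e : nmz (f k ω) = MvPolynomial.C (nrm (f k ω))⁻¹ * f k ω := by
      unfold nmz
      rw [if_pos h]
    rw [e, map_mul, MvPolynomial.eval_C, abs_mul, abs_of_pos (inv_pos.mpr h0)] at c3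
    have h5 : nrm (f k ω) * (2 * (K1 k * ((nrm (f k ω))⁻¹ * |MvPolynomial.eval (X k ω) (f k ω)|))) =
        2 * (K1 k * |MvPolynomial.eval (X k ω) (f k ω)|) := by
      field_simp
    have h6 := mul_le_mul_of_nonneg_left c3 h0.le
    rw [h5, mul_one] at h6
    have h7 := mul_le_mul_of_nonneg_left c2 p3
    linarith
  · push Not at h
    have := mul_nonneg p3 p4
    linarith

/-- **FULL HULL for the K-labels** -/
theorem ful_ng [Finite κ] {Q : S.VV M} {A : κ → Part S} {R : ∀ k, Setoid (S.F k).Ω} (hP : KnS R Q.v)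
    (hN : NG (LC.kz fun k => fc (R k)) Q A) : Ful Q := fun _ f deg hf X hX hb =>
  tame_of_low f deg (nmz_low hP hN f deg hf) X hX hb

/-! ### transitions -/

section two
variable {Q : S.VV M} {l : Lab S} {La : Fin M → ℝ} (f f' : Frm Q l La)

/-- **THE COEFFICIENTS OF THE TRANSITION ARE TAME** if the hull is full at the coordinates of the first frame -/
theorem trp_tameF (h0 : ∀ i, 0 ≤ La i) (h1 : ∀ i, La i ≤ 1) {d d' : ℕ}
    (hd : ∀ k ω j, (f.P k ω j).totalDegree ≤ d) (hd' : ∀ k ω j, (f'.P k ω j).totalDegree ≤ d') {e : ℝ} (he : 0 < e)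
    {z : (l.ovr e he).VV M} (hv : Ful z)
    (ht : ∃ K : ℕ → ℝ, S.Sub K ∧ ∀ᶠ k in UF, ∀ ω : (l.sp.F k).Ω, (l.sp.F k).μ ω ≠ 0 → ∀ j,
      |z.v k ω j - f.X.v k ω j| ≤ K k * S.dl e k) :
    ∃ K : ℕ → ℝ, S.Sub K ∧ Typ (S := l.sp) fun k (ω : (l k).T.Ω) => ∀ j, nrm (trp f f' k ω j) ≤ K k := by
  obtain ⟨Kt, hKt, ht⟩ := ht
  obtain ⟨Kv, hKv, hv'⟩ := trp_val f f' h0 hd'
  obtain ⟨Kx, hKx', hx⟩ := f'.X.bd
  have hKx : S.Sub Kx := (sp_Sub l).mp hKx'
  have hj : ∀ j : Fin M, ∃ K : ℕ → ℝ, S.Sub K ∧ Typ (S := l.sp) fun k (ω : (l k).T.Ω) =>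
      nrm (trp f f' k ω j) ≤ K k := by
    intro j
    obtain ⟨K, hK, hT⟩ := hv ((d' + 1) ^ M * (d + 1))
      (fun k (ω : (l k).T.Ω) => trp f f' k ω j) (fun k ω => trp_deg f f' hd hd' k ω j) (by
        filter_upwards [trp_fn f f'] with k hk ω ω' a b c
        have h2 : trp f f' k ω = trp f f' k ω' := hk ω ω' a b c.2 c.1
        rw [h2])
      (fun k (ω : (l k).T.Ω) => f.X.v k ω)
      ⟨Kt, (ovr_Sub l e he).mpr hKt, by
        filter_upwards [ht] with k hk ω hω j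
        rw [abs_sub_comm, ovr_dl, mul_one]
        exact hk ω hω j⟩
      ⟨fun k => Kv k + Kx k, (ovr_Sub l e he).mpr (hKv.add hKx), (Typ_true (S := l.ovr e he)).mono (by
        filter_upwards [hv', hx, hKv.1] with k a b c ω hω _
        have h2 := a ω hω j
        have h3 : |f'.X.v k ω j| ≤ Kx k := b ω hω j
        have h4 : S.dl (1 - La j) k ≤ 1 :=
          (S.dl_anti (sub_nonneg.mpr (h1 j)) k).trans (le_of_eq (S.dl_zero k))
        have h5 := abs_add_le (MvPolynomial.eval (f.X.v k ω) (trp f f' k ω j) - f'.X.v k ω j) (f'.X.v k ω j)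
        rw [sub_add_cancel] at h5
        have h6 := mul_le_mul_of_nonneg_left h4 c
        linarith)⟩
    exact ⟨K, (ovr_Sub l e he).mp hK, hT⟩
  choose K hK hT using hj
  refine ⟨fun k => ∑ j, K j k, ?_, (Typ_all (S := l.sp) _ hT).mono ?_⟩
  · exact Sub_sum K hK
  · have h2 : ∀ᶠ k in UF, ∀ j, 0 ≤ K j k := (eventually_all).mpr fun j => (hK j).1
    filter_upwards [h2] with k hk ω _ hh j
    exact (hh j).trans (Finset.single_le_sum (f := fun j => K j k) (fun i _ => hk i) (Finset.mem_univ j))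

/-- **THE CELLS** of the coordinates of the second frame are functions of the cells of the coordinates of the first
frame, over the label, up to `o(n)` bits -/
theorem trf_cellF (h0 : ∀ i, 0 ≤ La i) {d d' : ℕ}
    (hd : ∀ k ω j, (f.P k ω j).totalDegree ≤ d) (hd' : ∀ k ω j, (f'.P k ω j).totalDegree ≤ d') {e : ℝ} (he : 0 < e)
    (hLe : ∀ i, La i + e ≤ 1) {z : (l.ovr e he).VV M} (hv : Ful z)
    (ht : ∃ K : ℕ → ℝ, S.Sub K ∧ ∀ᶠ k in UF, ∀ ω : (l.sp.F k).Ω, (l.sp.F k).μ ω ≠ 0 → ∀ j,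
      |z.v k ω j - f.X.v k ω j| ≤ K k * S.dl e k)
    {y y' : (l.ovr e he).VV M}
    (hy : ∃ K : ℕ → ℝ, S.Sub K ∧ ∀ᶠ k in UF, ∀ ω : (l.sp.F k).Ω, (l.sp.F k).μ ω ≠ 0 → ∀ j,
      |y.v k ω j - f.X.v k ω j| ≤ K k * S.dl e k)
    (hy' : ∃ K : ℕ → ℝ, S.Sub K ∧ ∀ᶠ k in UF, ∀ ω : (l.sp.F k).Ω, (l.sp.F k).μ ω ≠ 0 → ∀ j,
      |y'.v k ω j - f'.X.v k ω j| ≤ K k * S.dl e k) {r : ℝ} (hr : r ≤ 1) :
    PLe (S := l.ovr e he) (fun k => fc (Setoid.ker (y'.cellv r k))) (fun k => fc (Setoid.ker (y.cellv r k))) := by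
  have h1 : ∀ i, La i ≤ 1 := fun i => by
    have := hLe i
    linarith
  obtain ⟨Kn, hKn, hT⟩ := trp_tameF f f' h0 h1 hd hd' he hv ht
  obtain ⟨Kv, hKv, hv'⟩ := trp_val f f' h0 hd'
  obtain ⟨Ky, hKy, hyb⟩ := hy
  obtain ⟨Kz, hKz, hzb⟩ := hy'
  obtain ⟨Kx, hKx', hx⟩ := f.X.bd
  have hKx : S.Sub Kx := (sp_Sub l).mp hKx'
  obtain ⟨D, hD⟩ : ∃ D : ℕ, D = (d' + 1) ^ M * (d + 1) := ⟨_, rfl⟩
  have hBS : S.Sub (fun k => Kx k + 1) := hKx.add (S.Sub_const zero_le_one)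
  have hE : S.Sub (fun k => (Kz k + Kz k) + (Kv k + Kv k) + Kn k * (D * (Kx k + 1) ^ D * (1 + (Ky k + Ky k)))) :=
    ((hKz.add hKz).add (hKv.add hKv)).add (hKn.mul (((S.Sub_const (Nat.cast_nonneg _)).mul (Sub_pow' hBS D)).mul
      ((S.Sub_const zero_le_one).add (hKy.add hKy))))
  refine PLe_cell_typ (S := l.ovr e he) y' r (fun k => Setoid.ker (y.cellv r k)) _ ((ovr_Sub l e he).mpr hE)
    (A := fun k (ω : (l k).T.Ω) => ∀ j, nrm (trp f f' k ω j) ≤ Kn k) hT ?_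
  filter_upwards [trp_fn f f', hv', hyb, hzb, hx, hKn.1, hKv.1, hKy.1, hKz.1, hKx.1] with k c0 c1 c2 c3 c4 p1 p2 p3 p4 p5
  intro (ω : (l k).T.Ω) (ω' : (l k).T.Ω) a b (A1 : ∀ j, nrm (trp f f' k ω j) ≤ Kn k) _ z hc j
  have hfn : trp f f' k ω = trp f f' k ω' := c0 ω ω' a b z.2 z.1
  have hδ := (l.ovr e he).dl_pos r k
  have hde : S.dl e k ≤ (l.ovr e he).dl r k := by
    rw [ovr_dl]
    exact S.dl_anti (by nlinarith) k
  have hdL : S.dl (1 - La j) k ≤ (l.ovr e he).dl r k := by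
    refine (S.dl_anti ?_ k).trans hde
    have := hLe j
    linarith
  have hcl : ∀ i, |y.v k ω i - y.v k ω' i| ≤ (l.ovr e he).dl r k := fun i =>
    abs_sub_le_of_floor_eq ((l.ovr e he).dl_pos r k) (congrFun hc i)
  have hX : ∀ i, |f.X.v k ω i - f.X.v k ω' i| ≤ (1 + (Ky k + Ky k)) * (l.ovr e he).dl r k := fun i => by
    have h2 := c2 ω a i
    have h3 := c2 ω' b i
    have h4 := hcl i
    have h5 := mul_le_mul_of_nonneg_left hde p3
    rw [abs_le] at h2 h3 h4 ⊢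
    constructor <;> nlinarith
  have hB1 : 1 ≤ Kx k + 1 := by linarith
  have hxb : ∀ i, |f.X.v k ω i| ≤ Kx k + 1 := fun i => by
    have h2 : |f.X.v k ω i| ≤ Kx k := c4 ω a i
    linarith
  have hxb' : ∀ i, |f.X.v k ω' i| ≤ Kx k + 1 := fun i => by
    have h2 : |f.X.v k ω' i| ≤ Kx k := c4 ω' b i
    linarith
  have hdf := Pool.Agent.Helper77.WDG.eval_sub_le (P := trp f f' k ω j) hB1
    (show 0 ≤ (1 + (Ky k + Ky k)) * (l.ovr e he).dl r k by positivity) (D := D)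
    (by rw [hD]; exact trp_deg f f' hd hd' k ω j) (fun i _ => hxb i) (fun i _ => hxb' i) (fun i _ => hX i)
  have hdf2 : |MvPolynomial.eval (f.X.v k ω) (trp f f' k ω j) - MvPolynomial.eval (f.X.v k ω') (trp f f' k ω j)| ≤
      Kn k * (D * (Kx k + 1) ^ D * (1 + (Ky k + Ky k))) * (l.ovr e he).dl r k := by
    refine hdf.trans ?_
    have h5 := mul_le_mul_of_nonneg_right (A1 j)
      (show 0 ≤ (D * (Kx k + 1) ^ D * ((1 + (Ky k + Ky k)) * (l.ovr e he).dl r k)) by positivity)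
    linarith
  have v1 := c1 ω a j
  have v2 := c1 ω' b j
  rw [← hfn] at v2
  have w1 := c3 ω a j
  have w2 := c3 ω' b j
  have m1 := mul_le_mul_of_nonneg_left hde p4
  have m2 := mul_le_mul_of_nonneg_left hdL p2
  show |y'.v k ω j - y'.v k ω' j| ≤ _
  rw [abs_le] at v1 v2 w1 w2 hdf2 ⊢
  constructor <;> nlinarith

/-- a point of the space of the label as a point of the space over the label -/
def ovv (l : Lab S) (e : ℝ) (he : 0 < e) (y : l.sp.VV M) : (l.ovr e he).VV M := y.chg l.V e he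

theorem ovv_v (l : Lab S) (e : ℝ) (he : 0 < e) (y : l.sp.VV M) : (ovv l e he y).v = y.v := rfl

theorem ovv_cell (l : Lab S) (e : ℝ) (he : 0 < e) (y : l.sp.VV M) (r : ℝ) (k : ℕ) :
    (ovv l e he y).cellv (r / e) k = y.cellv r k := by
  funext ω i
  have h4 : (l.ovr e he).dl (r / e) k = l.sp.dl r k := by
    rw [ovr_dl, mul_div_cancel₀ _ he.ne', sp_dl]
  show ⌊y.v k ω i / (l.ovr e he).dl (r / e) k⌋ = ⌊y.v k ω i / l.sp.dl r k⌋
  rw [h4]

/-- conditional entropies in the space over the label -/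
theorem h_ovr (l : Lab S) (e : ℝ) (he : 0 < e) (k : ℕ) (A B : Setoid (l k).T.Ω) :
    h (fc A : FL ((l.ovr e he).F k)) (fc B) = h (fc A : FL (l k).T) ((l k).v ⊔ fc B) := by
  rw [sup_comm]
  exact (frb (l k).T (l k).V e he).h_map (fc A) (fc B)

/-- the cells of level `r ≤ e` over the label -/
theorem trf_cells (h0 : ∀ i, 0 ≤ La i) {d d' : ℕ}
    (hd : ∀ k ω j, (f.P k ω j).totalDegree ≤ d) (hd' : ∀ k ω j, (f'.P k ω j).totalDegree ≤ d') {e : ℝ} (he : 0 < e)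
    (hLe : ∀ i, La i + e ≤ 1) {z : (l.ovr e he).VV M} (hv : Ful z)
    (ht : ∃ K : ℕ → ℝ, S.Sub K ∧ ∀ᶠ k in UF, ∀ ω : (l.sp.F k).Ω, (l.sp.F k).μ ω ≠ 0 → ∀ j,
      |z.v k ω j - f.X.v k ω j| ≤ K k * S.dl e k) {r : ℝ} (hr : r ≤ e) :
    Nul S fun k => h (fc (Setoid.ker (f'.X.cellv r k)) : FL (l k).T) ((l k).v ⊔ fc (Setoid.ker (f.X.cellv r k))) := by
  have hself : ∀ y : l.sp.VV M, ∃ K : ℕ → ℝ, S.Sub K ∧ ∀ᶠ k in UF, ∀ ω : (l.sp.F k).Ω, (l.sp.F k).μ ω ≠ 0 → ∀ j,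
      |(ovv l e he y).v k ω j - y.v k ω j| ≤ K k * S.dl e k := fun y =>
    ⟨fun _ => 0, S.Sub_const le_rfl, Eventually.of_forall fun k ω _ j => by
      rw [ovv_v, sub_self, abs_zero, zero_mul]⟩
  have h2 := trf_cellF f f' h0 hd hd' he hLe hv ht (hself f.X) (hself f'.X) (r := r / e) (by
    rw [div_le_one he]
    exact hr)
  have h3 : Nul S fun k => h (fc (Setoid.ker ((ovv l e he f'.X).cellv (r / e) k)) : FL ((l.ovr e he).F k))
    (fc (Setoid.ker ((ovv l e he f.X).cellv (r / e) k))) := (Lab.nul_over l e he).mp h2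
  refine h3.congr fun k => ?_
  beta_reduce
  rw [ovv_cell, ovv_cell]
  exact congrArg (fun x => x / (S.F k).n) (h_ovr l e he k _ _)

end two

end

end Pool.Agent.Helper18.TRF
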