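import Pool.Agent.Helper77.WDG.Nrm
import Pool.Agent.Helper77.WDG.Tri

/-! SCALING OF THE VARIABLES of a polynomial: coefficients, variables, values, sizes. -/

set_option autoImplicit false

namespace Pool.Agent.Helper18.TRF

open Finset MvPolynomial Pool.Agent.Helper77.WDG

noncomputable section

variable {M : ℕ}

/-- the polynomial `c₀ p(k_1 X_1, .., k_M X_M)` -/
def scl (c₀ : ℝ) (k : Fin M → ℝ) (p : MvPolynomial (Fin M) ℝ) : MvPolynomial (Fin M) ℝ :=
  C c₀ * bind₁ (fun a => C (k a) * X a) p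

variable {c₀ : ℝ} {k : Fin M → ℝ} {p : MvPolynomial (Fin M) ℝ}

theorem bind_scl_monomial (k : Fin M → ℝ) (b : Fin M →₀ ℕ) (r : ℝ) :
    bind₁ (fun a => C (k a) * X a) (monomial b r) = (monomial b (r * ∏ i, k i ^ b i) : MvPolynomial (Fin M) ℝ) := by
  classical
  rw [bind₁_monomial, monomial_eq]
  have h1 : ∏ i ∈ b.support, (C (k i) * X i : MvPolynomial (Fin M) ℝ) ^ b i =
      C (∏ i, k i ^ b i) * b.prod fun n e => X n ^ e := by
    have h2 : ∏ i, k i ^ b i = ∏ i ∈ b.support, k i ^ b i := by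
      symm
      apply Finset.prod_subset (Finset.subset_univ _)
      intro i _ hi
      rw [Finsupp.notMem_support_iff.mp hi, pow_zero]
    rw [h2, map_prod]
    unfold Finsupp.prod
    rw [← Finset.prod_mul_distrib]
    refine Finset.prod_congr rfl fun i _ => ?_
    rw [mul_pow, C_pow]
  rw [h1, ← mul_assoc, ← C_mul]

theorem coeff_scl (c₀ : ℝ) (k : Fin M → ℝ) (p : MvPolynomial (Fin M) ℝ) (a : Fin M →₀ ℕ) :
    (scl c₀ k p).coeff a = c₀ * (p.coeff a * ∏ i, k i ^ a i) := by
  classical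
  unfold scl
  rw [coeff_C_mul]
  congr 1
  have h1 : bind₁ (fun a => C (k a) * X a) p =
      ∑ b ∈ p.support, (monomial b (p.coeff b * ∏ i, k i ^ b i) : MvPolynomial (Fin M) ℝ) := by
    have h2 : bind₁ (fun a => C (k a) * X a) p =
        bind₁ (fun a => C (k a) * X a) (∑ b ∈ p.support, (monomial b (p.coeff b) : MvPolynomial (Fin M) ℝ)) := by
      rw [p.support_sum_monomial_coeff]
    rw [h2, map_sum]
    exact Finset.sum_congr rfl fun b _ => bind_scl_monomial k b _
  rw [h1, coeff_sum]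
  by_cases ha : a ∈ p.support
  · rw [Finset.sum_eq_single a]
    · rw [coeff_monomial, if_pos rfl]
    · intro b _ hb
      rw [coeff_monomial, if_neg hb]
    · intro h
      exact absurd ha h
  · rw [notMem_support_iff.mp ha, zero_mul]
    apply Finset.sum_eq_zero
    intro b hb
    rw [coeff_monomial, if_neg]
    rintro rfl
    exact ha hb

theorem support_scl {a : Fin M →₀ ℕ} (ha : a ∈ (scl c₀ k p).support) : a ∈ p.support := by
  rw [mem_support_iff, coeff_scl] at ha
  rw [mem_support_iff]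
  intro h
  apply ha
  rw [h, zero_mul, mul_zero]

theorem vars_scl {i : Fin M} (hi : i ∈ (scl c₀ k p).vars) : i ∈ p.vars := by
  classical
  rw [mem_vars_iff_mem_support] at hi ⊢
  obtain ⟨d, hd, h⟩ := hi
  exact ⟨d, support_scl hd, h⟩

theorem eval_scl (x : Fin M → ℝ) : eval x (scl c₀ k p) = c₀ * eval (fun a => k a * x a) p := by
  unfold scl
  rw [map_mul, eval_C, Pool.Agent.Helper77.WDG.eval_bind]
  have h1 : (fun a => eval x (C (k a) * X a)) = fun a => k a * x a := funext fun a => by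
    rw [map_mul, eval_C, eval_X]
  rw [h1]

theorem deg_scl {D : ℕ} (h : p.totalDegree ≤ D) : (scl c₀ k p).totalDegree ≤ D :=
  Finset.sup_le fun _ ha => (le_totalDegree (support_scl ha)).trans h

theorem nrm_scl (h : ∀ a ∈ p.support, |c₀ * ∏ i, k i ^ a i| ≤ 1) : nrm (scl c₀ k p) ≤ nrm p := by
  rw [nrm_eq_sum (s := p.support) fun a ha => support_scl ha]
  unfold nrm
  refine Finset.sum_le_sum fun a ha => ?_
  rw [coeff_scl]
  have h1 : c₀ * (p.coeff a * ∏ i, k i ^ a i) = p.coeff a * (c₀ * ∏ i, k i ^ a i) := by ring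
  rw [h1, abs_mul]
  exact mul_le_of_le_one_right (abs_nonneg _) (h a ha)

theorem Tri.scl {P : Fin M → MvPolynomial (Fin M) ℝ} (hP : Tri P) (c : Fin M → ℝ) (k : Fin M → ℝ) :
    Tri fun j => scl (c j) k (P j) := fun j i hi => hP j i (vars_scl hi)

theorem TriW.scl {w : Fin M → ℝ} {P : Fin M → MvPolynomial (Fin M) ℝ} (hP : TriW w P) (c : Fin M → ℝ)
    (k : Fin M → ℝ) : TriW w fun j => TRF.scl (c j) k (P j) where
  tri := Tri.scl hP.tri c k
  lt := fun j => by
    obtain ⟨d, hd, h⟩ := hP.lt j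
    exact ⟨d, hd, fun a ha => h a (support_scl ha)⟩

end

end Pool.Agent.Helper18.TRF
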